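import Mathlib

/-!
# Null sets of `ℝ ^ n` and generic blocks
-/

set_option autoImplicit false

open MeasureTheory Set Cardinal

namespace Pool.Agent.R592.Ent

/-- fewer than `κ` Lebesgue null sets of reals do not cover the line -/
def NoCover (κ : Cardinal.{0}) : Prop :=
  ∀ (ι : Type) (N : ι → Set ℝ), #ι < κ → (∀ i, volume (N i) = 0) → ∃ x, ∀ i, x ∉ N i

theorem noCover_pi {κ : Cardinal.{0}} (h : NoCover κ) (n : ℕ) :
    ∀ (ι : Type) (N : ι → Set (Fin n → ℝ)), #ι < κ → (∀ i, volume (N i) = 0) →
      ∃ x, ∀ i, x ∉ N i := by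
  induction n with
  | zero =>
    intro ι N _ hN
    refine ⟨fun i => i.elim0, fun i hx => ?_⟩
    have h1 : N i = Set.univ := by
      ext y
      simp only [mem_univ, iff_true]
      rwa [Subsingleton.elim y (fun i => i.elim0)]
    have h2 := hN i
    rw [h1] at h2
    have h3 := Measure.measure_univ_eq_zero.1 h2
    exact (NeZero.ne (volume : Measure (Fin 0 → ℝ))) h3
  | succ n ih =>
    intro ι N hι hN
    let e := MeasurableEquiv.piFinSuccAbove (fun _ : Fin (n + 1) => ℝ) 0
    have he : MeasurePreserving e volume volume :=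
      volume_preserving_piFinSuccAbove (fun _ : Fin (n + 1) => ℝ) 0
    have h1 : ∀ i, ∀ᵐ x : ℝ, ∀ᵐ y : Fin n → ℝ, e.symm (x, y) ∉ N i := by
      intro i
      have h2 : ∀ᵐ z : Fin (n + 1) → ℝ, z ∉ N i := measure_eq_zero_iff_ae_notMem.1 (hN i)
      have h3 : ∀ᵐ z : ℝ × (Fin n → ℝ), e.symm z ∉ N i :=
        he.symm.quasiMeasurePreserving.ae h2
      exact Measure.ae_ae_of_ae_prod h3
    obtain ⟨x, hx⟩ := h ι (fun i => {x | ¬ ∀ᵐ y : Fin n → ℝ, e.symm (x, y) ∉ N i}) hι
      (fun i => ae_iff.1 (h1 i))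
    have hx' : ∀ i, ∀ᵐ y : Fin n → ℝ, e.symm (x, y) ∉ N i := fun i => not_not.1 (hx i)
    obtain ⟨y, hy⟩ := ih ι (fun i => {y | e.symm (x, y) ∈ N i}) hι
      (fun i => measure_eq_zero_iff_ae_notMem.2 (hx' i))
    exact ⟨e.symm (x, y), hy⟩

/-! ### Sets which meet each line of a direction in at most one point -/

theorem null_of_direction {n : ℕ} {Z : Set (Fin n → ℝ)} (hZ : MeasurableSet Z)
    (v : Fin n → ℝ) (h : ∀ a ∈ Z, ∀ s : ℝ, 0 < s → a + s • v ∉ Z) : volume Z = 0 := by
  have hdisj : Pairwise (Function.onFun Disjoint fun s : ℝ => (fun a => s • v + a) ⁻¹' Z) := by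
    have key : ∀ s s' : ℝ, s < s' → Disjoint ((fun a => s • v + a) ⁻¹' Z)
        ((fun a => s' • v + a) ⁻¹' Z) := by
      intro s s' hss
      rw [Set.disjoint_left]
      intro a ha ha'
      have ha1 : s • v + a ∈ Z := ha
      have ha2 : s' • v + a ∈ Z := ha'
      refine h _ ha1 (s' - s) (by linarith) ?_
      have e : s • v + a + (s' - s) • v = s' • v + a := by
        rw [sub_smul]
        abel
      rw [e]
      exact ha2
    intro s s' hne
    rcases lt_or_gt_of_ne hne with hlt | hlt
    · exact key s s' hlt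
    · exact (key s' s hlt).symm
  have h1 := Measure.countable_meas_pos_of_disjoint_iUnion (μ := (volume : Measure (Fin n → ℝ)))
    (fun s : ℝ => (measurable_const_add (s • v)) hZ) hdisj
  by_contra hne
  have h2 : {s : ℝ | 0 < volume ((fun a => s • v + a) ⁻¹' Z)} = Set.univ := by
    ext s
    simp only [mem_ofPred_eq, mem_univ, iff_true]
    rw [measure_preimage_add]
    exact pos_iff_ne_zero.2 hne
  rw [h2] at h1
  exact not_countable_univ h1

/-! ### Mixing coordinates -/

/-- the point which agrees with `a` on `S` and with `w` elsewhere -/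
def mix {n : ℕ} (S : Finset (Fin n)) (a w : Fin n → ℝ) : Fin n → ℝ :=
  fun i => if i ∈ S then a i else w i

theorem qmp_mix_aux {n : ℕ} (q : Fin n → Prop) [DecidablePred q] :
    Measure.QuasiMeasurePreserving (fun p : (Fin n → ℝ) × (Fin n → ℝ) =>
      (fun i => if q i then p.1 i else p.2 i : Fin n → ℝ)) := by
  let e := MeasurableEquiv.piEquivPiSubtypeProd (fun _ : Fin n => ℝ) q
  have he : MeasurePreserving e volume volume :=
    volume_preserving_piEquivPiSubtypeProd (fun _ : Fin n => ℝ) q
  have h1 : Measure.QuasiMeasurePreserving (fun a : Fin n → ℝ => (e a).1) volume volume :=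
    Measure.quasiMeasurePreserving_fst.comp he.quasiMeasurePreserving
  have h2 : Measure.QuasiMeasurePreserving (fun a : Fin n → ℝ => (e a).2) volume volume :=
    Measure.quasiMeasurePreserving_snd.comp he.quasiMeasurePreserving
  have h3 := QuasiMeasurePreserving.prodMap h1 h2
  have h4 := he.symm.quasiMeasurePreserving.comp h3
  have h5 : (fun p : (Fin n → ℝ) × (Fin n → ℝ) =>
      (fun i => if q i then p.1 i else p.2 i : Fin n → ℝ)) =
      e.symm ∘ Prod.map (fun a : Fin n → ℝ => (e a).1) (fun a : Fin n → ℝ => (e a).2) := by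
    funext p
    funext i
    by_cases hi : q i
    · simp [e, hi, MeasurableEquiv.piEquivPiSubtypeProd, Equiv.piEquivPiSubtypeProd]
    · simp [e, hi, MeasurableEquiv.piEquivPiSubtypeProd, Equiv.piEquivPiSubtypeProd]
  rw [h5]
  exact h4

theorem qmp_mix {n : ℕ} (S : Finset (Fin n)) :
    Measure.QuasiMeasurePreserving (fun p : (Fin n → ℝ) × (Fin n → ℝ) => mix S p.1 p.2) :=
  qmp_mix_aux (fun i => i ∈ S)

/-! ### Blocks -/

/-- the block of a point of `ℝ ^ n`: its coordinates and their sum -/
def blk {n : ℕ} (x : Fin n → ℝ) (j : Fin (n + 1)) : ℝ :=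
  if h : (j : ℕ) < n then x ⟨j, h⟩ else ∑ i, x i

/-- `n` entries of a block, as a linear map -/
def blkL {n : ℕ} (j : Fin n → Fin (n + 1)) : (Fin n → ℝ) →ₗ[ℝ] (Fin n → ℝ) where
  toFun x i := blk x (j i)
  map_add' x y := by
    funext i
    simp only [blk, Pi.add_apply]
    split_ifs
    · rfl
    · rw [Finset.sum_add_distrib]
  map_smul' c x := by
    funext i
    simp only [blk, Pi.smul_apply, smul_eq_mul, RingHom.id_apply]
    split_ifs
    · rfl
    · rw [Finset.mul_sum]

theorem blk_eq_zero {n : ℕ} {x : Fin n → ℝ} {j : Fin n → Fin (n + 1)} (hj : Function.Injective j)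
    (h : ∀ i, blk x (j i) = 0) : x = 0 := by
  classical
  have hcard : (Finset.univ.image j).card = n := by
    rw [Finset.card_image_of_injective _ hj, Finset.card_univ, Fintype.card_fin]
  have hz : ∀ m ∈ Finset.univ.image j, blk x m = 0 := by
    intro m hm
    obtain ⟨i, -, rfl⟩ := Finset.mem_image.1 hm
    exact h i
  have hc : (Finset.univ.image j)ᶜ.card = 1 := by
    rw [Finset.card_compl, hcard, Fintype.card_fin]
    omega
  obtain ⟨m, hm⟩ := Finset.card_eq_one.1 hc
  have hz' : ∀ k, k ≠ m → blk x k = 0 := by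
    intro k hk
    apply hz
    by_contra hcon
    have : k ∈ (Finset.univ.image j)ᶜ := Finset.mem_compl.2 hcon
    rw [hm, Finset.mem_singleton] at this
    exact hk this
  have hx : ∀ i : Fin n, (i : ℕ) ≠ m → x i = 0 := by
    intro i hi
    have h1 := hz' i.castSucc (fun h => hi (by rw [← h]; rfl))
    simpa [blk] using h1
  by_cases hmn : (m : ℕ) < n
  · have h1 := hz' (Fin.last n) (fun h => by rw [← h] at hmn; simp at hmn)
    have h2 : ∑ i, x i = 0 := by simpa [blk] using h1
    rw [Finset.sum_eq_single (⟨m, hmn⟩ : Fin n)] at h2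
    · funext i
      by_cases hi : i = ⟨m, hmn⟩
      · rw [hi, h2]; rfl
      · exact hx i (fun h => hi (Fin.ext h))
    · intro i _ hi
      exact hx i (fun h => hi (Fin.ext h))
    · intro hn
      exact absurd (Finset.mem_univ _) hn
  · funext i
    exact hx i (fun h => hmn (by rw [← h]; exact i.2))

theorem qmp_blkL {n : ℕ} {j : Fin n → Fin (n + 1)} (hj : Function.Injective j) :
    Measure.QuasiMeasurePreserving (blkL j) := by
  apply Measure.LinearMap.quasiMeasurePreserving
  intro hdet
  have h1 : Function.Injective (blkL j) := by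
    rw [← LinearMap.ker_eq_bot, LinearMap.ker_eq_bot']
    intro x hx
    exact blk_eq_zero hj (fun i => congrFun hx i)
  have h2 : LinearMap.ker (blkL j) = ⊥ := LinearMap.ker_eq_bot.2 h1
  have h3 := LinearMap.bot_lt_ker_of_det_eq_zero hdet
  rw [h2] at h3
  exact lt_irrefl _ h3

end Pool.Agent.R592.Ent
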