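import Pool.Agent.R592.Ent.Base

/-!
# Entangled sets from the covering number of the null ideal
-/

set_option autoImplicit false

open MeasureTheory Set Cardinal

namespace Pool.Agent.R592.Ent

/-- The type of the pair `a`, `b` of tuples is `t` (`false` stands for `0`, `true` for `1`). -/
def Typ {n : ℕ} (t : Fin n → Bool) (a b : Fin n → ℝ) : Prop := ∀ i, (t i = false ↔ a i < b i)

/-- The set `E` of reals is `(κ, n)`-entangled. -/
def Entangled (κ : Cardinal.{0}) (n : ℕ) (E : Set ℝ) : Prop :=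
  ∀ F : Set (Fin n → ℝ), #F = κ → (∀ a ∈ F, Function.Injective a ∧ ∀ i, a i ∈ E) →
    (∀ a ∈ F, ∀ b ∈ F, a ≠ b → ∀ i j, a i ≠ b j) →
      ∀ t : Fin n → Bool, ∃ a ∈ F, ∃ b ∈ F, a ≠ b ∧ Typ t a b

/-- For every `n > 1` some set of reals is `(𝔠, n)`-entangled but not `(𝔠, n + 1)`-entangled. -/
def Star : Prop := ∀ n : ℕ, 1 < n → ∃ E : Set ℝ, Entangled 𝔠 n E ∧ ¬ Entangled 𝔠 (n + 1) E

/-- the strict version of the type -/
def STyp {n : ℕ} (t : Fin n → Bool) (a b : Fin n → ℝ) : Prop :=
  ∀ i, if t i = true then b i < a i else a i < b i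

/-- the closed set attached to a sequence of tuples -/
def ZZ {n : ℕ} (t : Fin n → Bool) (d : ℕ → Fin n → ℝ) : Set (Fin n → ℝ) :=
  {a | a ∈ closure (range d) ∧ ∀ k, ¬ STyp t a (d k)}

lemma isOpen_styp_left {n : ℕ} (t : Fin n → Bool) (b : Fin n → ℝ) :
    IsOpen {a | STyp t a b} := by
  have h : {a | STyp t a b} = ⋂ i, {a : Fin n → ℝ | if t i = true then b i < a i else a i < b i} := by
    ext a
    simp [STyp]
  rw [h]
  refine isOpen_iInter_of_finite fun i => ?_
  by_cases hi : t i = true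
  · simp only [hi, if_true]
    exact isOpen_lt continuous_const (continuous_apply i)
  · simp only [hi]
    exact isOpen_lt (continuous_apply i) continuous_const

lemma isOpen_styp_right {n : ℕ} (t : Fin n → Bool) (a : Fin n → ℝ) :
    IsOpen {b | STyp t a b} := by
  have h : {b | STyp t a b} = ⋂ i, {b : Fin n → ℝ | if t i = true then b i < a i else a i < b i} := by
    ext a
    simp [STyp]
  rw [h]
  refine isOpen_iInter_of_finite fun i => ?_
  by_cases hi : t i = true
  · simp only [hi, if_true]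
    exact isOpen_lt (continuous_apply i) continuous_const
  · simp only [hi]
    exact isOpen_lt continuous_const (continuous_apply i)

lemma isClosed_ZZ {n : ℕ} (t : Fin n → Bool) (d : ℕ → Fin n → ℝ) : IsClosed (ZZ t d) := by
  have h : ZZ t d = closure (range d) ∩ ⋂ k, {a | STyp t a (d k)}ᶜ := by
    ext a
    simp [ZZ]
  rw [h]
  exact isClosed_closure.inter (isClosed_iInter fun k => (isOpen_styp_left t (d k)).isClosed_compl)

lemma null_ZZ {n : ℕ} (t : Fin n → Bool) (d : ℕ → Fin n → ℝ) : volume (ZZ t d) = 0 := by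
  refine null_of_direction (isClosed_ZZ t d).measurableSet
    (fun i => if t i = true then -1 else 1) ?_
  intro a ha s hs ha'
  have h1 : a + s • (fun i => if t i = true then (-1 : ℝ) else 1) ∈ {b | STyp t a b} := by
    intro i
    by_cases hi : t i = true
    · simp only [hi, if_true, Pi.add_apply, Pi.smul_apply, smul_eq_mul]
      linarith
    · simp only [hi, Pi.add_apply, Pi.smul_apply, smul_eq_mul]
      simp only [Bool.false_eq_true, if_false]
      linarith
  obtain ⟨b, hb, k, rfl⟩ := mem_closure_iff.1 ha'.1 _ (isOpen_styp_right t a) h1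
  exact ha.2 k hb

/-- extension of a partial injection -/
lemma exists_ext {n : ℕ} (j : Fin n → Fin (n + 1)) (I : Finset (Fin n)) (hj : InjOn j I) :
    ∃ j' : Fin n → Fin (n + 1), Function.Injective j' ∧ ∀ i ∈ I, j' i = j i := by
  classical
  have h1 : (I.image j).card ≤ n := by
    refine (Finset.card_image_le).trans ?_
    have := Finset.card_le_univ I
    rwa [Fintype.card_fin] at this
  obtain ⟨u, hu1, -, hu2⟩ := Finset.exists_subsuperset_card_eq (Finset.subset_univ (I.image j)) h1
    (by rw [Finset.card_univ, Fintype.card_fin]; omega)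
  obtain ⟨g, hg⟩ := Finset.exists_equiv_extend_of_card_eq (t := u) (s := I) (f := j)
    (by rw [Fintype.card_fin, hu2]) hu1 hj
  exact ⟨fun i => g i, fun a b hab => g.injective (Subtype.ext hab), hg⟩

lemma ae_step {n : ℕ} {Z : Set (Fin n → ℝ)} (S I : Finset (Fin n)) (j : Fin n → Fin (n + 1))
    (y : Fin n → ℝ) (hj : InjOn j I) (h : ∀ᵐ w : Fin n → ℝ, mix S y w ∉ Z) :
    ∀ᵐ x : Fin n → ℝ, ∀ᵐ w : Fin n → ℝ, mix S y (mix I (fun i => blk x (j i)) w) ∉ Z := by
  obtain ⟨j', hj1, hj2⟩ := exists_ext j I hj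
  have h1 : ∀ᵐ p : (Fin n → ℝ) × (Fin n → ℝ), mix S y (mix I p.1 p.2) ∉ Z := (qmp_mix I).ae h
  have h2 : ∀ᵐ v : Fin n → ℝ, ∀ᵐ w : Fin n → ℝ, mix S y (mix I v w) ∉ Z :=
    Measure.ae_ae_of_ae_prod h1
  have h3 : ∀ᵐ x : Fin n → ℝ, ∀ᵐ w : Fin n → ℝ, mix S y (mix I (blkL j' x) w) ∉ Z :=
    (qmp_blkL hj1).ae h2
  filter_upwards [h3] with x hx
  have e : ∀ w, mix I (fun i => blk x (j i)) w = mix I (blkL j' x) w := by
    intro w
    funext i
    by_cases hi : i ∈ I
    · simp [mix, hi, blkL, hj2 i hi]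
    · simp [mix, hi]
  simpa only [e] using hx

lemma continuous_blk {n : ℕ} (j : Fin (n + 1)) : Continuous fun x : Fin n → ℝ => blk x j := by
  by_cases h : (j : ℕ) < n
  · simp only [blk, h, dif_pos]
    exact continuous_apply _
  · simp only [blk, h, dif_neg, not_false_iff]
    exact continuous_finsetSum _ fun i _ => continuous_apply i

lemma blk_add {n : ℕ} (x v : Fin n → ℝ) (s : ℝ) (j : Fin (n + 1)) :
    blk (x + s • v) j = blk x j + s * blk v j := by
  simp only [blk]
  split_ifs
  · simp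
  · simp [Finset.sum_add_distrib, Finset.mul_sum]

lemma null_point {n : ℕ} (hn : 0 < n) (j : Fin (n + 1)) (p : ℝ) :
    volume {x : Fin n → ℝ | blk x j = p} = 0 := by
  refine null_of_direction (isClosed_eq (continuous_blk j) continuous_const).measurableSet
    (fun _ => 1) ?_
  intro a ha s hs ha'
  have h1 : blk a j = p := ha
  have h2 : blk (a + s • fun _ => (1 : ℝ)) j = p := ha'
  rw [blk_add, h1] at h2
  have h3 : 0 < blk (fun _ : Fin n => (1 : ℝ)) j := by
    simp only [blk]
    split_ifs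
    · exact one_pos
    · simp [hn]
  nlinarith

lemma exists_dir {n : ℕ} (hn : 1 < n) {j j' : Fin (n + 1)} (hne : j ≠ j') :
    ∃ v : Fin n → ℝ, blk v j ≠ blk v j' := by
  have key : ∀ j j' : Fin (n + 1), (j : ℕ) < j' → ∃ v : Fin n → ℝ, blk v j ≠ blk v j' := by
    intro j j' hlt
    have hj : (j : ℕ) < n := by omega
    by_cases hj' : (j' : ℕ) < n
    · refine ⟨Pi.single ⟨j, hj⟩ 1, ?_⟩
      simp only [blk, hj, hj', dif_pos, Pi.single_eq_same]
      rw [Pi.single_eq_of_ne]
      · exact one_ne_zero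
      · intro h
        have := congrArg Fin.val h
        simp only at this
        omega
    · obtain ⟨k, hk⟩ : ∃ k : Fin n, k ≠ ⟨j, hj⟩ := by
        have : Nontrivial (Fin n) := Fin.nontrivial_iff_two_le.2 hn
        exact exists_ne _
      refine ⟨Pi.single k 1, ?_⟩
      simp only [blk, hj, hj', dif_pos, dif_neg, not_false_iff]
      rw [Pi.single_eq_of_ne hk.symm, Finset.sum_pi_single']
      simp
  rcases Nat.lt_or_gt_of_ne (fun h => hne (Fin.ext h)) with h | h
  · exact key j j' h
  · obtain ⟨v, hv⟩ := key j' j h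
    exact ⟨v, hv.symm⟩

lemma null_eq {n : ℕ} (hn : 1 < n) {j j' : Fin (n + 1)} (hne : j ≠ j') :
    volume {x : Fin n → ℝ | blk x j = blk x j'} = 0 := by
  obtain ⟨v, hv⟩ := exists_dir hn hne
  refine null_of_direction (isClosed_eq (continuous_blk j) (continuous_blk j')).measurableSet v ?_
  intro a ha s hs ha'
  have h1 : blk a j = blk a j' := ha
  have h2 : blk (a + s • v) j = blk (a + s • v) j' := ha'
  rw [blk_add, blk_add, h1] at h2
  apply hv
  have h3 : s * blk v j = s * blk v j' := by linarith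
  exact mul_left_cancel₀ hs.ne' h3

theorem exists_rec {I : Type} [LinearOrder I] [WellFoundedLT I] {T : Type}
    (R : (a : I) → ((b : I) → b < a → T) → T → Prop) (h : ∀ a f, ∃ t, R a f t) :
    ∃ D : I → T, ∀ a, R a (fun b _ => D b) (D a) := by
  classical
  let F : (a : I) → ((b : I) → b < a → T) → T := fun a f => Classical.choose (h a f)
  have hF : ∀ a f, R a f (F a f) := fun a f => Classical.choose_spec (h a f)
  let wf : WellFounded (fun x y : I => x < y) := wellFounded_lt
  refine ⟨wf.fix F, fun a => ?_⟩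
  have h1 := hF a (fun b _ => wf.fix F b)
  have h2 : wf.fix F a = F a (fun b _ => wf.fix F b) := wf.fix_eq F a
  rw [h2]
  exact h1

section Rec

variable {Λ : Type} [LinearOrder Λ] [WellFoundedLT Λ] {n : ℕ}

/-- the points of the earlier blocks, and `0` -/
def old (α : Λ) (f : (β : Λ) → β < α → Fin n → ℝ) : Set ℝ :=
  {p | p = 0 ∨ ∃ β, ∃ h : β < α, ∃ j, p = blk (f β h) j}

/-- the requirement on the block `x` at stage `α` -/
def Req (D : Λ → ℕ → Fin n → ℝ) (α : Λ) (f : (β : Λ) → β < α → Fin n → ℝ) (x : Fin n → ℝ) :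
    Prop :=
  (∀ p ∈ old α f, ∀ j, blk x j ≠ p) ∧ (∀ j j', j ≠ j' → blk x j ≠ blk x j') ∧
    ∀ ξ < α, ∀ (t : Fin n → Bool) (S I : Finset (Fin n)) (j : Fin n → Fin (n + 1))
      (y : Fin n → ℝ), (∀ i, y i ∈ old α f) → InjOn j I →
        (∀ᵐ w : Fin n → ℝ, mix S y w ∉ ZZ t (D ξ)) →
          ∀ᵐ w : Fin n → ℝ, mix S y (mix I (fun i => blk x (j i)) w) ∉ ZZ t (D ξ)

lemma mk_old_lt (α : Λ) (hα : #(Iio α) < 𝔠) (f : (β : Λ) → β < α → Fin n → ℝ) :
    #(old α f) < 𝔠 := by
  have h1 : old α f ⊆ {0} ∪ range (fun p : Iio α × Fin (n + 1) => blk (f p.1.1 p.1.2) p.2) := by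
    rintro p (hp | ⟨β, h, j, hp⟩)
    · exact Or.inl hp
    · exact Or.inr ⟨(⟨β, h⟩, j), hp.symm⟩
  refine (mk_le_mk_of_subset h1).trans_lt ((mk_union_le _ _).trans_lt ?_)
  refine add_lt_of_lt aleph0_le_continuum ?_ ?_
  · rw [mk_singleton]
    exact one_lt_aleph0.trans aleph0_lt_continuum
  · refine mk_range_le.trans_lt ?_
    rw [mk_prod, lift_id, lift_id]
    refine mul_lt_of_lt aleph0_le_continuum hα ?_
    exact (lt_aleph0_of_finite _).trans aleph0_lt_continuum

theorem exists_req (hcov : NoCover 𝔠) (hn : 1 < n) (D : Λ → ℕ → Fin n → ℝ) (α : Λ)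
    (hα : #(Iio α) < 𝔠) (f : (β : Λ) → β < α → Fin n → ℝ) : ∃ x, Req D α f x := by
  classical
  let ι1 : Type := old α f × Fin (n + 1)
  let ι2 : Type := {p : Fin (n + 1) × Fin (n + 1) // p.1 ≠ p.2}
  let ι3 : Type := {q : Iio α × (Fin n → Bool) × Finset (Fin n) × Finset (Fin n) ×
    (Fin n → Fin (n + 1)) × (Fin n → old α f) // InjOn q.2.2.2.2.1 q.2.2.2.1 ∧
      ∀ᵐ w : Fin n → ℝ, mix q.2.2.1 (fun i => (q.2.2.2.2.2 i : ℝ)) w ∉ ZZ q.2.1 (D q.1)}
  let N : ι1 ⊕ ι2 ⊕ ι3 → Set (Fin n → ℝ) := fun s =>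
    match s with
    | Sum.inl p => {x | blk x p.2 = p.1}
    | Sum.inr (Sum.inl p) => {x | blk x p.1.1 = blk x p.1.2}
    | Sum.inr (Sum.inr q) => {x | ¬ ∀ᵐ w : Fin n → ℝ,
        mix q.1.2.2.1 (fun i => (q.1.2.2.2.2.2 i : ℝ))
          (mix q.1.2.2.2.1 (fun i => blk x (q.1.2.2.2.2.1 i)) w) ∉ ZZ q.1.2.1 (D q.1.1)}
  have hold := mk_old_lt α hα f
  have hfin : ∀ (A : Type) [Finite A], #A < 𝔠 := fun A _ =>
    (lt_aleph0_of_finite A).trans aleph0_lt_continuum
  have hprod : ∀ A B : Type, #A < 𝔠 → #B < 𝔠 → #(A × B) < 𝔠 := by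
    intro A B hA hB
    rw [mk_prod, lift_id, lift_id]
    exact mul_lt_of_lt aleph0_le_continuum hA hB
  have hsum : ∀ A B : Type, #A < 𝔠 → #B < 𝔠 → #(A ⊕ B) < 𝔠 := by
    intro A B hA hB
    rw [mk_sum, lift_id, lift_id]
    exact add_lt_of_lt aleph0_le_continuum hA hB
  have hpow : #(Fin n → old α f) < 𝔠 := by
    rw [mk_arrow, lift_id, lift_id, mk_fin]
    by_cases hinf : ℵ₀ ≤ #(old α f)
    · refine lt_of_le_of_lt ?_ hold
      exact_mod_cast power_nat_le hinf
    · rw [not_le] at hinf
      exact (power_lt_aleph0 hinf natCast_lt_aleph0).trans aleph0_lt_continuum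
  have hcard : #(ι1 ⊕ ι2 ⊕ ι3) < 𝔠 := by
    refine hsum _ _ (hprod _ _ hold (hfin _)) (hsum _ _ (hfin _) ?_)
    refine (mk_subtype_le _).trans_lt ?_
    exact hprod _ _ hα (hprod _ _ (hfin _) (hprod _ _ (hfin _) (hprod _ _ (hfin _)
      (hprod _ _ (hfin _) hpow))))
  have hnull : ∀ s, volume (N s) = 0 := by
    rintro (p | p | q)
    · exact null_point (by omega) _ _
    · exact null_eq hn p.2
    · exact ae_iff.1 (ae_step _ _ _ _ q.2.1 q.2.2)
  obtain ⟨x, hx⟩ := noCover_pi hcov n _ N hcard hnull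
  refine ⟨x, fun p hp j => hx (Sum.inl (⟨p, hp⟩, j)), fun j j' hne =>
    hx (Sum.inr (Sum.inl ⟨(j, j'), hne⟩)), ?_⟩
  intro ξ hξ t S I j y hy hj hS
  have h1 := hx (Sum.inr (Sum.inr ⟨(⟨ξ, hξ⟩, t, S, I, j, fun i => ⟨y i, hy i⟩), hj, hS⟩))
  exact not_not.1 h1

end Rec

/-- **Main construction.** -/
theorem star_of_noCover (hcov : NoCover 𝔠) : Star := by
  classical
  intro n hn
  let Λ := (𝔠 : Cardinal.{0}).ord.ToType
  have hΛ : #Λ = 𝔠 := Cardinal.mk_ord_toType _
  have hΛ2 : ∀ γ : Λ, #(Iio γ) < 𝔠 := fun γ => Cardinal.mk_Iio_toType_ord_lt γ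
  -- enumeration of the sequences of tuples
  obtain ⟨D, hD⟩ : ∃ D : Λ → ℕ → Fin n → ℝ, Function.Surjective D := by
    have h1 : #(ℕ → Fin n → ℝ) ≤ #Λ := by
      rw [hΛ]
      have h2 : #(Fin n → ℝ) ≤ 𝔠 := by
        rw [mk_arrow, lift_id, lift_id, mk_fin, mk_real]
        exact_mod_cast power_nat_le aleph0_le_continuum
      calc #(ℕ → Fin n → ℝ) = #(Fin n → ℝ) ^ ℵ₀ := by rw [mk_arrow, lift_id, lift_id, mk_nat]
        _ ≤ 𝔠 ^ ℵ₀ := power_le_power_right h2
        _ = 𝔠 := continuum_power_aleph0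
    obtain ⟨e⟩ := h1
    exact ⟨Function.invFun e, Function.invFun_surjective e.injective⟩
  obtain ⟨x, hx⟩ := exists_rec (Req D) (fun α f => exists_req hcov hn D α (hΛ2 α) f)
  have hdist1 : ∀ α j j', blk (x α) j = blk (x α) j' → j = j' := by
    intro α j j' h
    by_contra hne
    exact (hx α).2.1 j j' hne h
  have hdist2 : ∀ α β j j', blk (x α) j = blk (x β) j' → α = β := by
    have key : ∀ α β j j', α < β → blk (x α) j ≠ blk (x β) j' := by
      intro α β j j' hlt h
      exact (hx β).1 (blk (x α) j) (Or.inr ⟨α, hlt, j, rfl⟩) j' h.symm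
    intro α β j j' h
    rcases lt_trichotomy α β with hlt | heq | hlt
    · exact absurd h (key α β j j' hlt)
    · exact heq
    · exact absurd h.symm (key β α j' j hlt)
  refine ⟨{r | ∃ α j, r = blk (x α) j}, ?_, ?_⟩
  · -- entangled
    intro F hF hFE hFd t
    by_contra hcon
    have H : ∀ a ∈ F, ∀ b ∈ F, a ≠ b → ¬ Typ t a b := by
      intro a ha b hb hab h
      exact hcon ⟨a, ha, b, hb, hab, h⟩
    have hne : Nonempty F := by
      rw [← mk_ne_zero_iff, hF]
      exact continuum_ne_zero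
    obtain ⟨u, hu⟩ := TopologicalSpace.exists_dense_seq F
    let d : ℕ → Fin n → ℝ := fun k => (u k : Fin n → ℝ)
    have hdF : ∀ k, d k ∈ F := fun k => (u k).2
    have hFcl : ∀ a ∈ F, a ∈ closure (range d) := by
      intro a ha
      have h1 : (⟨a, ha⟩ : F) ∈ closure (range u) := hu _
      have h2 := image_closure_subset_closure_image (f := (Subtype.val : F → Fin n → ℝ))
        continuous_subtype_val (mem_image_of_mem _ h1)
      rwa [← range_comp] at h2
    obtain ⟨ξ, hξ⟩ := hD d
    choose β j hβj using fun a : F => fun i => (hFE a.1 a.2).2 i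
    obtain ⟨a, ha⟩ : ∃ a : F, ∀ i, ξ < β a i := by
      by_contra hno
      push Not at hno
      choose i hi using hno
      let g : F → Iic ξ × Fin (n + 1) := fun a => (⟨β a (i a), hi a⟩, j a (i a))
      have hg : Function.Injective g := by
        intro a b hab
        have h1 : β a (i a) = β b (i b) := congrArg (fun p => (p.1 : Λ)) hab
        have h2 : j a (i a) = j b (i b) := congrArg Prod.snd hab
        by_contra hne'
        refine hFd a.1 a.2 b.1 b.2 (fun h => hne' (Subtype.ext h)) (i a) (i b) ?_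
        rw [hβj a, hβj b, h1, h2]
      have h3 := mk_le_of_injective hg
      rw [hF, mk_prod, lift_id, lift_id] at h3
      refine absurd h3 (not_le.2 (mul_lt_of_lt aleph0_le_continuum ?_ ?_))
      · rw [← Iio_insert]
        refine (mk_insert_le).trans_lt ?_
        exact add_lt_of_lt aleph0_le_continuum (hΛ2 ξ) (one_lt_aleph0.trans aleph0_lt_continuum)
      · exact (lt_aleph0_of_finite _).trans aleph0_lt_continuum
    have hainj : Function.Injective a.1 := (hFE a.1 a.2).1
    have haZ : a.1 ∈ ZZ t d := by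
      refine ⟨hFcl a.1 a.2, fun k hk => ?_⟩
      refine H a.1 a.2 (d k) (hdF k) ?_ ?_
      · intro h
        have h1 := hk ⟨0, by omega⟩
        rw [← h] at h1
        split_ifs at h1 <;> exact lt_irrefl _ h1
      · intro i
        have h1 := hk i
        by_cases hi : t i = true
        · rw [if_pos hi] at h1
          rw [hi]
          simp only [Bool.true_eq_false, false_iff, not_lt]
          exact h1.le
        · rw [if_neg hi] at h1
          have hi' : t i = false := by simpa using hi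
          rw [hi']
          simpa using h1
    -- maximal initial set of good coordinates
    let 𝒮 : Finset (Finset (Fin n)) := Finset.univ.filter fun S =>
      (∀ i ∈ S, ∀ k, k ∉ S → β a i < β a k) ∧ ∀ᵐ w : Fin n → ℝ, mix S a.1 w ∉ ZZ t d
    have h0 : (∅ : Finset (Fin n)) ∈ 𝒮 := by
      rw [Finset.mem_filter]
      refine ⟨Finset.mem_univ _, by simp, ?_⟩
      have h1 : ∀ᵐ w : Fin n → ℝ, w ∉ ZZ t d := measure_eq_zero_iff_ae_notMem.1 (null_ZZ t d)
      filter_upwards [h1] with w hw
      have e : mix ∅ a.1 w = w := by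
        funext i
        simp [mix]
      rw [e]
      exact hw
    obtain ⟨S, hS, hSmax⟩ := Finset.exists_max_image 𝒮 Finset.card ⟨∅, h0⟩
    obtain ⟨-, hSinit, hSae⟩ := Finset.mem_filter.1 hS
    by_cases hSu : S = Finset.univ
    · rw [hSu] at hSae
      obtain ⟨w, hw⟩ := hSae.exists
      apply hw
      have e : mix Finset.univ a.1 w = a.1 := by
        funext i
        simp [mix]
      rw [e]
      exact haZ
    · have hne2 : (Finset.univ \ S).Nonempty := by
        rw [Finset.sdiff_nonempty]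
        intro h
        exact hSu (Finset.eq_univ_of_forall fun i => h (Finset.mem_univ i))
      obtain ⟨k, hk, hkmin⟩ := Finset.exists_min_image (Finset.univ \ S) (β a) hne2
      have hkS : k ∉ S := (Finset.mem_sdiff.1 hk).2
      set γ := β a k with hγ
      let I : Finset (Fin n) := Finset.univ.filter fun i => i ∉ S ∧ β a i = γ
      have hIm : ∀ i, i ∈ I ↔ i ∉ S ∧ β a i = γ := fun i => by simp [I]
      have hjI : InjOn (j a) I := by
        intro i hi l hl hil
        have h1 := (hIm i).1 hi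
        have h2 := (hIm l).1 hl
        apply hainj
        rw [hβj a i, hβj a l, h1.2, h2.2, hil]
      let y : Fin n → ℝ := fun i => if i ∈ S then a.1 i else 0
      have hy : ∀ i, y i ∈ old γ (fun b _ => x b) := by
        intro i
        by_cases hi : i ∈ S
        · have h1 : y i = blk (x (β a i)) (j a i) := by
            simp only [y, hi, if_true]
            exact hβj a i
          exact Or.inr ⟨β a i, hSinit i hi k hkS, j a i, h1⟩
        · exact Or.inl (by simp [y, hi])
      have hmixy : ∀ w, mix S y w = mix S a.1 w := by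
        intro w
        funext i
        by_cases hi : i ∈ S <;> simp [mix, y, hi]
      have hSae' : ∀ᵐ w : Fin n → ℝ, mix S y w ∉ ZZ t (D ξ) := by
        rw [hξ]
        simpa only [hmixy] using hSae
      have h3 := (hx γ).2.2 ξ (ha k) t S I (j a) y hy hjI hSae'
      have hmem : S ∪ I ∈ 𝒮 := by
        rw [Finset.mem_filter]
        refine ⟨Finset.mem_univ _, ?_, ?_⟩
        · intro i hi l hl
          rw [Finset.mem_union, not_or] at hl
          have hl2 : γ ≤ β a l := hkmin l (Finset.mem_sdiff.2 ⟨Finset.mem_univ _, hl.1⟩)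
          rcases Finset.mem_union.1 hi with hi | hi
          · exact hSinit i hi l hl.1
          · rw [((hIm i).1 hi).2]
            refine lt_of_le_of_ne hl2 fun h => hl.2 ((hIm l).2 ⟨hl.1, h.symm⟩)
        · rw [hξ] at h3
          filter_upwards [h3] with w hw
          have e : mix S y (mix I (fun i => blk (x γ) (j a i)) w) = mix (S ∪ I) a.1 w := by
            funext i
            by_cases hi : i ∈ S
            · simp [mix, y, hi]
            · by_cases hi2 : i ∈ I
              · have h4 := (hIm i).1 hi2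
                simp only [mix, hi, hi2, Finset.mem_union, or_true, if_true, if_false]
                rw [hβj a i, h4.2]
              · simp [mix, hi, hi2]
          rw [← e]
          exact hw
      have h5 := hSmax _ hmem
      have h6 : S.card < (S ∪ I).card := by
        refine Finset.card_lt_card ⟨Finset.subset_union_left, fun h => hkS (h ?_)⟩
        exact Finset.mem_union_right _ ((hIm k).2 ⟨hkS, rfl⟩)
      omega
  · -- not entangled
    intro hent
    have hinj : Function.Injective fun α => blk (x α) :=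
      fun α β h => hdist2 α β 0 0 (congrFun h 0)
    have hF1 : ∀ a ∈ range (fun α => blk (x α)), Function.Injective a ∧
        ∀ i, a i ∈ {r | ∃ α j, r = blk (x α) j} := by
      rintro _ ⟨α, rfl⟩
      exact ⟨fun j j' h => hdist1 α j j' h, fun j => ⟨α, j, rfl⟩⟩
    have hF2 : ∀ a ∈ range (fun α => blk (x α)), ∀ b ∈ range (fun α => blk (x α)), a ≠ b →
        ∀ i j, a i ≠ b j := by
      rintro _ ⟨α, rfl⟩ _ ⟨β, rfl⟩ hne i j h
      exact hne (by rw [hdist2 α β i j h])
    obtain ⟨_, ⟨α, rfl⟩, _, ⟨β, rfl⟩, -, htyp⟩ := hent (range fun α => blk (x α))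
      ((mk_range_eq _ hinj).trans hΛ) hF1 hF2 (fun j => decide (j = Fin.last n))
    have h1 : ∀ i : Fin n, x α i < x β i := by
      intro i
      have h2 := htyp i.castSucc
      have h3 : i.castSucc ≠ Fin.last n := (Fin.castSucc_lt_last i).ne
      simp only [h3, decide_false, true_iff, blk, Fin.val_castSucc, i.2, dif_pos] at h2
      exact h2
    have h2 := htyp (Fin.last n)
    simp only [decide_true, Bool.true_eq_false, false_iff, blk, Fin.val_last, lt_self_iff_false,
      dif_neg, not_false_iff, not_lt] at h2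
    have h3 : ∑ i, x α i < ∑ i, x β i :=
      Finset.sum_lt_sum_of_nonempty ⟨⟨0, by omega⟩, Finset.mem_univ _⟩ fun i _ => h1 i
    linarith

end Pool.Agent.R592.Ent
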