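import Pool.Agent.R592.NonM
import Pool.Agent.R592.Ent.Main

/-!
# Null sets of `2 ^ ω` and of the real line
-/

set_option autoImplicit false

open MeasureTheory Set Cardinal
open scoped ENNReal

namespace Pool.Agent.R592.Ent

/-- the points of `2 ^ ω` which extend the string `s` -/
def Cyl (s : List Bool) : Set (ℕ → Bool) := {x | ∀ i < s.length, x i = s.getD i false}

/-- A subset of `2 ^ ω` is null if for every `ε > 0` it is covered by a set of cylinders whose
measures `2 ^ (- length)` have a sum which is at most `ε`. -/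
def IsNull (N : Set (ℕ → Bool)) : Prop :=
  ∀ ε : ℝ≥0∞, ε ≠ 0 → ∃ D : Set (List Bool),
    ∑' s : D, (2⁻¹ : ℝ≥0∞) ^ (s : List Bool).length ≤ ε ∧ ∀ x ∈ N, ∃ s ∈ D, x ∈ Cyl s

/-- the least number of null subsets of `2 ^ ω` which cover it -/
noncomputable def covN : Cardinal.{0} :=
  sInf {c | ∃ 𝒩 : Set (Set (ℕ → Bool)), (∀ N ∈ 𝒩, IsNull N) ∧ ⋃₀ 𝒩 = Set.univ ∧ #𝒩 = c}

/-- the left end point of the dyadic interval of the string `s` -/
noncomputable def val : List Bool → ℝ
  | [] => 0
  | b :: s => ((if b then 1 else 0) + val s) / 2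

lemma val_cons (b : Bool) (s : List Bool) : val (b :: s) = ((if b then 1 else 0) + val s) / 2 := rfl

lemma val_nonneg (s : List Bool) : 0 ≤ val s := by
  induction s with
  | nil => exact le_rfl
  | cons b s ih =>
    rw [val_cons]
    split_ifs <;> linarith

lemma val_le (s : List Bool) : val s + (2⁻¹ : ℝ) ^ s.length ≤ 1 := by
  induction s with
  | nil => simp [val]
  | cons b s ih =>
    rw [val_cons, List.length_cons, pow_succ]
    split_ifs <;> linarith

/-- the open dyadic interval of a string -/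
noncomputable def Ix (s : List Bool) : Set ℝ := Ioo (val s) (val s + (2⁻¹ : ℝ) ^ s.length)

lemma disjoint_Ix : ∀ s t : List Bool, ¬ s <+: t → ¬ t <+: s → Disjoint (Ix s) (Ix t) := by
  intro s
  induction s with
  | nil => intro t h _; exact absurd (List.nil_prefix) h
  | cons b s ih =>
    intro t h1 h2
    cases t with
    | nil => exact absurd (List.nil_prefix) h2
    | cons c t =>
      by_cases hbc : b = c
      · subst hbc
        have h3 : ¬ s <+: t := fun h => h1 (List.cons_prefix_cons.2 ⟨rfl, h⟩)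
        have h4 : ¬ t <+: s := fun h => h2 (List.cons_prefix_cons.2 ⟨rfl, h⟩)
        have h5 := ih t h3 h4
        rw [Set.disjoint_left] at h5 ⊢
        intro r hr hr'
        simp only [Ix, val_cons, List.length_cons, pow_succ, mem_Ioo] at hr hr' h5
        refine h5 (a := 2 * r - (if b then 1 else 0)) ⟨?_, ?_⟩ ⟨?_, ?_⟩ <;> linarith [hr.1, hr.2, hr'.1, hr'.2]
      · rw [Set.disjoint_left]
        intro r hr hr'
        simp only [Ix, val_cons, List.length_cons, pow_succ, mem_Ioo] at hr hr'
        have a1 := val_le s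
        have a2 := val_le t
        have a3 := val_nonneg s
        have a4 := val_nonneg t
        cases b <;> cases c
        · exact hbc rfl
        · simp only [Bool.false_eq_true, if_false, if_true] at hr hr'
          linarith [hr.1, hr.2, hr'.1, hr'.2]
        · simp only [Bool.false_eq_true, if_false, if_true] at hr hr'
          linarith [hr.1, hr.2, hr'.1, hr'.2]
        · exact hbc rfl

lemma bin_step (x : ℕ → Bool) : bin x = ((if x 0 then 1 else 0) + bin (fun n => x (n + 1))) / 2 := by
  unfold bin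
  rw [Real.ofDigits_eq_sum_add_ofDigits _ 1]
  simp only [Finset.sum_range_one, Real.ofDigitsTerm]
  cases x 0 <;> simp <;> ring

lemma bin_mem_aux (x : ℕ → Bool) : 0 ≤ bin x ∧ bin x ≤ 1 :=
  ⟨Real.ofDigits_nonneg _, Real.ofDigits_le_one _⟩

lemma bin_mem (s : List Bool) : ∀ x ∈ Cyl s, bin x ∈ Icc (val s) (val s + (2⁻¹ : ℝ) ^ s.length) := by
  induction s with
  | nil =>
    intro x _
    have := bin_mem_aux x
    simpa [val] using this
  | cons b s ih =>
    intro x hx
    have h0 : x 0 = b := by
      have := hx 0 (by simp)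
      simpa using this
    have h1 : (fun n => x (n + 1)) ∈ Cyl s := by
      intro i hi
      have := hx (i + 1) (by simpa using hi)
      simpa using this
    have h2 := ih _ h1
    rw [bin_step, val_cons, List.length_cons, pow_succ, h0]
    constructor <;> linarith [h2.1, h2.2]

/-- the initial segment of `x` of length `n` -/
def ini (x : ℕ → Bool) (n : ℕ) : List Bool := List.ofFn fun i : Fin n => x i

lemma ini_length (x : ℕ → Bool) (n : ℕ) : (ini x n).length = n := by simp [ini]

lemma mem_cyl_ini (x : ℕ → Bool) (n : ℕ) : x ∈ Cyl (ini x n) := by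
  intro i hi
  rw [ini_length] at hi
  rw [List.getD_eq_getElem _ _ (by rw [ini_length]; exact hi)]
  simp [ini]

lemma prefix_ini {x : ℕ → Bool} {n : ℕ} {t : List Bool} (h : t <+: ini x n) :
    t = ini x t.length ∧ t.length ≤ n := by
  have hlen : t.length ≤ n := by
    have := h.length_le
    rwa [ini_length] at this
  refine ⟨?_, hlen⟩
  apply List.ext_getElem
  · rw [ini_length]
  · intro i h1 h2
    have h3 : i < (ini x n).length := by rw [ini_length]; omega
    have h4 := h.getElem h1
    rw [h4]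
    simp [ini]

theorem isNull_preimage {N : Set ℝ} (h : volume N = 0) : IsNull (bin ⁻¹' N) := by
  classical
  intro ε hε
  obtain ⟨U, hNU, hU, hUε⟩ := Set.exists_isOpen_lt_of_lt N ε (by rw [h]; exact pos_iff_ne_zero.2 hε)
  let box : List Bool → Set ℝ := fun s => Icc (val s) (val s + (2⁻¹ : ℝ) ^ s.length)
  let D : Set (List Bool) := {s | box s ⊆ U ∧ ∀ t, t <+: s → t ≠ s → ¬ box t ⊆ U}
  refine ⟨D, ?_, ?_⟩
  · have h1 : ∀ s : D, (2⁻¹ : ℝ≥0∞) ^ (s : List Bool).length = volume (Ix s) := by
      intro s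
      rw [Ix, Real.volume_Ioo]
      have : val ↑s + (2⁻¹ : ℝ) ^ (s : List Bool).length - val ↑s = (2⁻¹ : ℝ) ^ (s : List Bool).length := by
        ring
      rw [this, ENNReal.ofReal_pow (by norm_num), ENNReal.ofReal_inv_of_pos (by norm_num)]
      simp
    simp only [h1]
    rw [← measure_iUnion]
    · refine le_trans (measure_mono ?_) hUε.le
      refine iUnion_subset fun s => ?_
      exact Ioo_subset_Icc_self.trans s.2.1
    · intro s t hst
      have hst' : (s : List Bool) ≠ t := fun h => hst (Subtype.ext h)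
      refine disjoint_Ix _ _ (fun hp => ?_) (fun hp => ?_)
      · exact t.2.2 s hp hst' s.2.1
      · exact s.2.2 t hp hst'.symm t.2.1
    · intro s
      exact measurableSet_Ioo
  · intro x hx
    have hxU : bin x ∈ U := hNU hx
    obtain ⟨δ, hδ, hball⟩ := Metric.isOpen_iff.1 hU _ hxU
    obtain ⟨n, hn⟩ := exists_pow_lt_of_lt_one hδ (show (2⁻¹ : ℝ) < 1 by norm_num)
    have hbox : ∃ n, box (ini x n) ⊆ U := by
      refine ⟨n, fun r hr => hball ?_⟩
      have h1 := bin_mem _ x (mem_cyl_ini x n)
      rw [Metric.mem_ball, Real.dist_eq, abs_lt]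
      simp only [box, mem_Icc, ini_length] at hr h1
      constructor <;> linarith [hr.1, hr.2, h1.1, h1.2]
    refine ⟨ini x (Nat.find hbox), ⟨Nat.find_spec hbox, ?_⟩, mem_cyl_ini x _⟩
    intro t ht hne
    obtain ⟨h1, h2⟩ := prefix_ini ht
    rw [h1]
    apply Nat.find_min hbox
    refine lt_of_le_of_ne h2 fun h3 => hne ?_
    rw [h1, h3]

lemma isNull_singleton (x : ℕ → Bool) : IsNull {x} := by
  intro ε hε
  obtain ⟨n, hn⟩ := ENNReal.exists_inv_two_pow_lt hε
  refine ⟨{ini x n}, ?_, ?_⟩
  · rw [tsum_singleton (f := fun s : List Bool => (2⁻¹ : ℝ≥0∞) ^ s.length), ini_length]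
    exact hn.le
  · rintro y rfl
    exact ⟨_, rfl, mem_cyl_ini _ _⟩

theorem noCover_of_le (h : 𝔠 ≤ covN) : NoCover 𝔠 := by
  intro ι N hι hN
  by_contra hcon
  push Not at hcon
  let 𝒩 : Set (Set (ℕ → Bool)) := range fun i => bin ⁻¹' N i
  have h1 : covN ≤ #𝒩 := by
    refine csInf_le' ⟨𝒩, ?_, ?_, rfl⟩
    · rintro _ ⟨i, rfl⟩
      exact isNull_preimage (hN i)
    · refine eq_univ_of_forall fun x => ?_
      obtain ⟨i, hi⟩ := hcon (bin x)
      exact ⟨_, ⟨i, rfl⟩, hi⟩
  have h2 : #𝒩 ≤ #ι := mk_range_le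
  exact absurd ((h.trans h1).trans h2) (not_le.2 hι)

theorem star_of_le (h : 𝔠 ≤ covN) : Star := star_of_noCover (noCover_of_le h)

end Pool.Agent.R592.Ent
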