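import Pool.Agent.R593.Rnd.Polar
import Pool.Agent.R592.Ent.Null

/-!
# Covering numbers in the random model

Sentences of the forcing language about the covering numbers of the meagre and of the null ideal,
and the proof that they are forced by random forcing.
-/

set_option autoImplicit false
set_option linter.unusedSectionVars false

namespace Pool.Agent.R592.Ent

open Cardinal MeasureTheory Set Filter Topology
open Pool.Agent.TH773.PSet Pool.Agent.R593.Rnd
open scoped ENNReal

universe u v w

section Sentences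

variable {P : Type u} [Preorder P]

/-- The point `X` of `2 ^ ω` (a subset of `ω`) extends the string `s`. -/
def InCyl (X : RName P) (s : List Bool) : Set P :=
  fall fun i : ℕ => fall fun _ : i < s.length =>
    if s.getD i false = true then meets (X i) else fnot (meets (X i))

/-- `D`, a family of subsets of `ω` indexed by `Y`, contains every subset of `ω`. -/
def AllReals {Y : Type v} (D : Y → RName P) : Set P :=
  fall fun X : RName P => fex fun y => Same X (D y)

variable (P) in
/-- The continuum is at most the cardinality of `Y`. -/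
def ContinuumLe (Y : Type v) : Set P := fex fun D : Y → RName P => AllReals D

/-- The set `A` of strings is dense: every string has an extension in `A`. -/
def DenseSet (A : List Bool → Set P) : Set P :=
  fall fun s => fex fun t => fex fun _ : s <+: t => meets (A t)

/-- Only finitely many initial segments of `X` belong to `A`. -/
def FinitelyMany (X : RName P) (A : List Bool → Set P) : Set P :=
  fex fun N : ℕ => fall fun s : List Bool => fall fun _ : N ≤ s.length =>
    fnot (fand (InCyl X s) (meets (A s)))

variable (P) in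
/-- The covering number of the meagre ideal is at most the cardinality of `Y`: there is a family
of dense sets of strings indexed by `Y` such that for each point of `2 ^ ω` some member of the
family contains only finitely many of its initial segments. -/
def CovMLe (Y : Type v) : Set P :=
  fex fun A : Y → List Bool → Set P =>
    fand (fall fun y => DenseSet (A y)) (fall fun X : RName P => fex fun y => FinitelyMany X (A y))

/-- `C` is a null code: a sequence of sets of strings such that the sum of the measures of the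
cylinders given by the `k`-th set is at most `2 ^ (- k)`. -/
def NullCode (C : ℕ → List Bool → Set P) : Set P :=
  fall fun k : ℕ => fall fun F : Finset (List Bool) =>
    fall fun _ : (2⁻¹ : ℝ≥0∞) ^ k < ∑ s ∈ F, (2⁻¹ : ℝ≥0∞) ^ s.length =>
      fnot (fall fun s : F => meets (C k s))

/-- The point `X` belongs to the null set with the code `C`: for each `k` it extends a string of
the `k`-th set. -/
def InNull (X : RName P) (C : ℕ → List Bool → Set P) : Set P :=
  fall fun k : ℕ => fex fun s : List Bool => fand (meets (C k s)) (InCyl X s)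

variable (P) in
/-- `2 ^ ω` is covered by a family of null sets indexed by `Y`. -/
def CovNLe (Y : Type v) : Set P :=
  fex fun C : Y → ℕ → List Bool → Set P =>
    fand (fall fun y => NullCode (C y)) (fall fun X : RName P => fex fun y => InNull X (C y))

variable (P) in
/-- The cardinals of the ground model are preserved, the continuum is at most `κ`, the space
`2 ^ ω` is not covered by fewer than `κ` null sets, and it is covered by `ν` meagre sets. -/
def Model (κ ν : Cardinal.{v}) : Set P :=
  fand (CardinalsPreserved.{u, v} P)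
    (fand (ContinuumLe P κ.out)
      (fand (fall fun μ : Cardinal.{v} => fall fun _ : μ < κ => fnot (CovNLe P μ.out))
        (CovMLe P ν.out)))

end Sentences

section Meas

variable {Ω : Type u} [MeasurableSpace Ω] {μ : Measure Ω} [IsFiniteMeasure μ]

theorem exists_rep1 (N : Set (Cond μ)) :
    ∃ E : Set Ω, MeasurableSet E ∧ meets N = AE μ E := by
  obtain ⟨X, hX, h⟩ := exists_rep fun _ : ℕ => N
  exact ⟨X 0, hX 0, h 0⟩

/-- the event that the point given by `X` extends `s` -/
def cyl (X : ℕ → Set Ω) (s : List Bool) : Set Ω :=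
  {x | ∀ i < s.length, (x ∈ X i ↔ s.getD i false = true)}

theorem cyl_eq (X : ℕ → Set Ω) (s : List Bool) :
    cyl X s = ⋂ i : ℕ, ⋂ _ : i < s.length, (if s.getD i false = true then X i else (X i)ᶜ) := by
  ext x
  simp only [cyl, mem_ofPred_eq, mem_iInter]
  refine forall_congr' fun i => forall_congr' fun _ => ?_
  by_cases h : s.getD i false = true
  · rw [if_pos h]
    exact ⟨fun h' => h'.2 h, fun h' => ⟨fun _ => h, fun _ => h'⟩⟩
  · rw [if_neg h]
    exact ⟨fun h' hx => h (h'.1 hx), fun h' => ⟨fun hx => absurd hx h', fun h'' => absurd h'' h⟩⟩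

theorem measurable_cyl {X : ℕ → Set Ω} (hX : ∀ n, MeasurableSet (X n)) (s : List Bool) :
    MeasurableSet (cyl X s) := by
  rw [cyl_eq]
  refine MeasurableSet.iInter fun i => MeasurableSet.iInter fun _ => ?_
  split_ifs
  · exact hX i
  · exact (hX i).compl

theorem inCyl_AE {X : RName (Cond μ)} {X' : ℕ → Set Ω} (hX' : ∀ n, MeasurableSet (X' n))
    (h : ∀ n, meets (X n) = AE μ (X' n)) (s : List Bool) : InCyl X s = AE μ (cyl X' s) := by
  rw [cyl_eq]
  unfold InCyl
  simp only [← fall_AE]
  congr 1
  funext i
  congr 1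
  funext _
  split_ifs
  · exact h i
  · rw [h i, fnot_AE (hX' i)]

end Meas

section Product

variable {I : Type}

/-- the events of the `i`-th random real -/
def rr (i : I) (n : ℕ) : Set (I × ℕ → Bool) := {x | x (i, n) = true}

theorem measurable_rr (i : I) (n : ℕ) : MeasurableSet (rr i n) :=
  measurableSet_eq_fun (measurable_pi_apply (i, n)) measurable_const

theorem dep_rr (i : I) (n : ℕ) : Dep {t : I × ℕ | t.1 = i} (rr i n) := dep_coord rfl

theorem dep_cyl {T : Set (I × ℕ)} {X : ℕ → Set (I × ℕ → Bool)} (hX : ∀ n, Dep T (X n))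
    (s : List Bool) : Dep T (cyl X s) := by
  rw [cyl_eq]
  refine Dep.iInter fun i => Dep.iInter fun _ => ?_
  split_ifs
  · exact hX i
  · exact (hX i).compl

theorem coin_singleton (v : Bool) : coin {v} = (2 : ENNReal)⁻¹ := by
  cases v with
  | true => exact coin_true
  | false =>
    unfold coin
    simp [Measure.smul_apply, Measure.add_apply]

/-- the measure of a pattern of the `i`-th random real -/
theorem measure_pattern (i : I) (J : Finset ℕ) (v : ℕ → Bool) :
    coinProduct I {x | ∀ j ∈ J, x (i, j) = v j} = (2 : ENNReal)⁻¹ ^ J.card := by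
  classical
  let s : Finset (I × ℕ) := J.image fun n => (i, n)
  have hs : {x : I × ℕ → Bool | ∀ j ∈ J, x (i, j) = v j} = Set.pi s fun t => {v t.2} := by
    ext x
    simp only [s, Set.mem_pi, mem_ofPred_eq, Finset.coe_image, mem_image,
      Finset.mem_coe, forall_exists_index, and_imp, forall_apply_eq_imp_iff₂,
      mem_singleton_iff]
  have hcard : s.card = J.card := by
    rw [Finset.card_image_of_injective]
    intro a b h
    exact congrArg Prod.snd h
  rw [hs, coinProduct, Measure.infinitePi_pi _ fun _ _ => measurableSet_singleton _]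
  simp only [coin_singleton]
  rw [Finset.prod_const, hcard]

theorem dep_pattern (i : I) (J : Finset ℕ) (v : ℕ → Bool) :
    Dep {t : I × ℕ | t.1 = i} {x : I × ℕ → Bool | ∀ j ∈ J, x (i, j) = v j} := by
  have : {x : I × ℕ → Bool | ∀ j ∈ J, x (i, j) = v j} =
      ⋂ j : ℕ, ⋂ _ : j ∈ J, (if v j = true then rr i j else (rr i j)ᶜ) := by
    ext x
    simp only [mem_ofPred_eq, mem_iInter]
    refine forall_congr' fun j => forall_congr' fun _ => ?_
    by_cases h : v j = true <;> simp [h, rr]
  rw [this]
  refine Dep.iInter fun j => Dep.iInter fun _ => ?_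
  split_ifs
  · exact dep_rr i j
  · exact (dep_rr i j).compl

theorem measure_cyl_rr (i : I) (s : List Bool) :
    coinProduct I (cyl (rr i) s) = (2 : ENNReal)⁻¹ ^ s.length := by
  have : cyl (rr i) s = {x | ∀ j ∈ Finset.range s.length, x (i, j) = s.getD j false} := by
    ext x
    simp only [cyl, rr, mem_ofPred_eq, Finset.mem_range]
    refine forall_congr' fun j => forall_congr' fun _ => ?_
    constructor
    · intro h
      by_cases h' : s.getD j false = true
      · rw [h', h.2 h']
      · have h1 : ¬ x (i, j) = true := fun h2 => h' (h.1 h2)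
        rw [Bool.not_eq_true] at h' h1
        rw [h', h1]
    · intro h
      rw [h]
  rw [this, measure_pattern, Finset.card_range]

/-! ### Meagre sets -/

/-- the `n`-th block -/
def bk (n : ℕ) : Finset ℕ := Finset.Ico (n ^ 2) ((n + 1) ^ 2)

theorem card_bk (n : ℕ) : n ≤ (bk n).card := by
  rw [bk, Nat.card_Ico]
  have : (n + 1) ^ 2 = n ^ 2 + 2 * n + 1 := by ring
  omega

/-- agreement of the point given by `X` with the `i`-th random real on the `n`-th block -/
def agree (X : ℕ → Set (I × ℕ → Bool)) (i : I) (n : ℕ) : Set (I × ℕ → Bool) :=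
  {x | ∀ j ∈ bk n, (x ∈ X j ↔ x (i, j) = true)}

theorem measure_agree {X : ℕ → Set (I × ℕ → Bool)} {T : Set (I × ℕ)} (hX : ∀ n, Dep T (X n))
    {i : I} (hi : ∀ t ∈ T, t.1 ≠ i) (n : ℕ) :
    coinProduct I (agree X i n) ≤ (2 : ENNReal)⁻¹ ^ n := by
  classical
  let Q : Finset ℕ → Set (I × ℕ → Bool) := fun S => {x | ((bk n).filter fun k => x ∈ X k) = S}
  let R : Finset ℕ → Set (I × ℕ → Bool) := fun S => {x | ∀ j ∈ bk n, x (i, j) = decide (j ∈ S)}
  have hQd : ∀ S, Dep T (Q S) := fun S => dep_filter hX (bk n) S
  have hdisj : Disjoint T {t : I × ℕ | t.1 = i} :=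
    Set.disjoint_left.2 fun t h1 h2 => hi t h1 h2
  have hcov : agree X i n ⊆ ⋃ S ∈ (bk n).powerset, Q S ∩ R S := by
    intro x hx
    refine mem_iUnion₂.2 ⟨(bk n).filter fun k => x ∈ X k,
      Finset.mem_powerset.2 (Finset.filter_subset _ _), rfl, ?_⟩
    intro j hj
    by_cases h : x ∈ X j
    · rw [(hx j hj).1 h]
      simp [h, hj]
    · have h1 : ¬ x (i, j) = true := fun h' => h ((hx j hj).2 h')
      rw [Bool.not_eq_true] at h1
      rw [h1]
      simp [h]
  refine (measure_mono hcov).trans ((measure_biUnion_finset_le _ _).trans ?_)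
  have h1 : ∀ S ∈ (bk n).powerset, coinProduct I (Q S ∩ R S) ≤
      coinProduct I (Q S) * (2 : ENNReal)⁻¹ ^ n := by
    intro S _
    rw [dep_indep hdisj (hQd S) (dep_pattern i (bk n) _)]
    refine mul_le_mul_right ?_ _
    rw [measure_pattern]
    exact pow_le_pow_right_of_le_one' (ENNReal.inv_le_one.2 (by norm_num)) (card_bk n)
  refine (Finset.sum_le_sum h1).trans ?_
  rw [← Finset.sum_mul]
  have h2 : ∑ S ∈ (bk n).powerset, coinProduct I (Q S) ≤ 1 := by
    rw [← measure_biUnion_finset ?_ fun S _ => (hQd S).meas]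
    · exact prob_le_one
    · intro S _ S' _ hne
      refine Set.disjoint_left.2 fun x h3 h4 => hne ?_
      rw [← h3, ← h4]
  calc _ ≤ 1 * (2 : ENNReal)⁻¹ ^ n := mul_le_mul_left h2 _
    _ = _ := one_mul _

/-- the set of strings given by the `i`-th random real: the last block agrees with it -/
def As (i : I) (s : List Bool) : Set (I × ℕ → Bool) :=
  {x | ∃ n : ℕ, s.length = (n + 1) ^ 2 ∧ ∀ j ∈ bk n, x (i, j) = s.getD j false}

theorem measurable_As (i : I) (s : List Bool) : MeasurableSet (As i s) := by
  have : As i s = ⋃ n : ℕ, ⋃ _ : s.length = (n + 1) ^ 2,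
      {x | ∀ j ∈ bk n, x (i, j) = s.getD j false} := by
    ext x
    simp [As]
  rw [this]
  exact MeasurableSet.iUnion fun n => MeasurableSet.iUnion fun _ => (dep_pattern i (bk n) _).meas

theorem covMLe {Y : Type v} (hY : ℵ₀ < #Y) (e : Y → I) (he : Function.Injective e)
    (p : Random I) : p ∈ CovMLe (Random I) Y := by
  classical
  have hAm : ∀ y s, meets (AE (coinProduct I) (As (e y) s)) = AE (coinProduct I) (As (e y) s) :=
    fun y s => meets_AE (measurable_As _ _)
  refine mem_fex_of (fun y s => AE (coinProduct I) (As (e y) s)) fun q _ => ⟨fun y s => ?_,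
    fun X => ?_⟩
  · -- density
    simp only [hAm]
    have h1 : ∀ t : List Bool, fex (fun _ : s <+: t => AE (coinProduct I) (As (e y) t)) =
        AE (coinProduct I) (⋃ _ : s <+: t, As (e y) t) := fun t => fex_AE fun _ => measurable_As _ _
    simp only [h1]
    rw [fex_AE fun t => MeasurableSet.iUnion fun _ => measurable_As _ _]
    have h2 : (⋃ t : List Bool, ⋃ _ : s <+: t, As (e y) t) = Set.univ := by
      refine eq_univ_of_forall fun x => ?_
      simp only [mem_iUnion, exists_prop]
      let n := s.length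
      refine ⟨s ++ List.ofFn (fun k : Fin ((n + 1) ^ 2 - n) => x (e y, n + k)),
        List.prefix_append _ _, n, ?_, ?_⟩
      · rw [List.length_append, List.length_ofFn]
        have : n ≤ (n + 1) ^ 2 := by nlinarith
        omega
      · intro j hj
        rw [bk, Finset.mem_Ico] at hj
        have h3 : n ≤ j := by
          have : n ≤ n ^ 2 := by
            rcases Nat.eq_zero_or_pos n with h | h
            · rw [h]; simp
            · nlinarith
          omega
        rw [List.getD_append_right _ _ _ _ h3]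
        rw [List.getD_eq_getElem _ _ (by rw [List.length_ofFn]; omega)]
        simp only [List.getElem_ofFn]
        congr 2
        omega
    rw [h2, mem_AE]
    simp
  · -- covering
    obtain ⟨X', hX', hXX⟩ := exists_rep X
    choose T hT hT' using fun n => exists_countable (hX' n)
    have hTc : (⋃ n, T n).Countable := countable_iUnion hT
    have hdep : ∀ n, Dep (⋃ n, T n) (X' n) := fun n => (hT' n).mono (subset_iUnion T n)
    obtain ⟨y, hy⟩ : ∃ y, e y ∉ Prod.fst '' ⋃ n, T n := by
      by_contra hcon
      push Not at hcon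
      have h1 : (Set.univ : Set Y).Countable := by
        refine ((hTc.image Prod.fst).preimage he).mono fun y _ => hcon y
      have h2 := countable_univ_iff.1 h1
      exact absurd (mk_le_aleph0_iff.2 h2) (not_le.2 hY)
    have hy' : ∀ t ∈ ⋃ n, T n, t.1 ≠ e y := fun t ht h => hy ⟨t, ht, h⟩
    refine mem_fex_of y fun r _ => ?_
    have hcyl : ∀ s, InCyl X s = AE (coinProduct I) (cyl X' s) := inCyl_AE hX' hXX
    have h1 : FinitelyMany X (fun s => AE (coinProduct I) (As (e y) s)) =
        AE (coinProduct I) (⋃ N : ℕ, ⋂ s : List Bool, ⋂ _ : N ≤ s.length,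
          (cyl X' s ∩ As (e y) s)ᶜ) := by
      unfold FinitelyMany
      have h2 : ∀ s, fnot (fand (InCyl X s) (meets (AE (coinProduct I) (As (e y) s)))) =
          AE (coinProduct I) (cyl X' s ∩ As (e y) s)ᶜ := by
        intro s
        rw [hcyl, hAm, fand_AE, fnot_AE ((measurable_cyl hX' s).inter (measurable_As _ _))]
      simp only [h2, fall_AE]
      rw [fex_AE]
      intro N
      exact MeasurableSet.iInter fun s => MeasurableSet.iInter fun _ =>
        ((measurable_cyl hX' s).inter (measurable_As _ _)).compl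
    show r ∈ FinitelyMany X (fun s => AE (coinProduct I) (As (e y) s))
    rw [h1, mem_AE_iff]
    have h3 : ∑' n, coinProduct I (agree X' (e y) n) ≠ ⊤ :=
      ne_top_of_le_ne_top tsum_two (ENNReal.tsum_le_tsum fun n => measure_agree hdep hy' n)
    filter_upwards [ae_eventually_notMem h3] with x hx _
    obtain ⟨n0, hn0⟩ := eventually_atTop.1 hx
    simp only [mem_iUnion, mem_iInter, mem_compl_iff, mem_inter_iff, not_and]
    refine ⟨(n0 + 1) ^ 2, fun s hs hc => ?_⟩
    rintro ⟨n, hn, hj⟩
    have hnn : n0 ≤ n := by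
      by_contra hlt
      rw [not_le] at hlt
      have : (n + 1) ^ 2 < (n0 + 1) ^ 2 := Nat.pow_lt_pow_left (by omega) (by norm_num)
      omega
    refine hn0 n hnn fun j hjb => ?_
    have hjl : j < s.length := by
      rw [bk, Finset.mem_Ico] at hjb
      omega
    rw [hc j hjl, hj j hjb]

/-! ### Null sets -/

theorem not_covNLe {M : Type} (hI : ℵ₀ < #I) (hM : #M < #I) (p : Random I) :
    p ∈ fnot (CovNLe (Random I) M) := by
  classical
  intro q _ hq
  obtain ⟨r, _, C, hC1, hC2⟩ := mem_fex.1 hq q le_rfl
  choose E hE hCE using fun y k s => exists_rep1 (C y k s)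
  choose T hT hT' using fun y k s => exists_countable (hE y k s)
  let TT : Set (I × ℕ) := ⋃ a : M × ℕ × List Bool, T a.1 a.2.1 a.2.2
  obtain ⟨i, hi⟩ : ∃ i, i ∉ Prod.fst '' TT := by
    by_contra hcon
    push Not at hcon
    have h1 : #I ≤ #(Prod.fst '' TT) := by
      rw [eq_univ_of_forall hcon, mk_univ]
    have h2 : #TT ≤ #M * ℵ₀ * ℵ₀ := by
      refine (mk_iUnion_le_sum_mk).trans ?_
      refine (sum_le_sum (fun a : M × ℕ × List Bool => #(T a.1 a.2.1 a.2.2)) (fun _ => ℵ₀)
        fun a => (hT _ _ _).le_aleph0).trans ?_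
      rw [sum_const', mk_prod, lift_id, lift_id]
      refine mul_le_mul' (mul_le_mul' le_rfl ?_) le_rfl
      exact mk_le_aleph0
    have h3 : #M * ℵ₀ * ℵ₀ < #I := by
      refine mul_lt_of_lt hI.le (mul_lt_of_lt hI.le hM hI) hI
    exact absurd (h1.trans (mk_image_le.trans h2)) (not_le.2 h3)
  have hi' : ∀ t ∈ TT, t.1 ≠ i := fun t ht h => hi ⟨t, ht, h⟩
  have hdep : ∀ y k s, Dep TT (E y k s) := fun y k s =>
    (hT' y k s).mono (subset_iUnion (fun a : M × ℕ × List Bool => T a.1 a.2.1 a.2.2) (y, k, s))
  -- the random real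
  have hXm : ∀ n, meets (AE (coinProduct I) (rr i n)) = AE (coinProduct I) (rr i n) :=
    fun n => meets_AE (measurable_rr i n)
  obtain ⟨r', hr', y, hy⟩ := mem_fex.1 (hC2 fun n => AE (coinProduct I) (rr i n)) r le_rfl
  have h1 : r' ∈ AE (coinProduct I) (⋂ k : ℕ, ⋃ s : List Bool, E y k s ∩ cyl (rr i) s) := by
    have h2 : InNull (fun n => AE (coinProduct I) (rr i n)) (C y) =
        AE (coinProduct I) (⋂ k : ℕ, ⋃ s : List Bool, E y k s ∩ cyl (rr i) s) := by
      unfold InNull
      have h3 : ∀ k s, fand (meets (C y k s)) (InCyl (fun n => AE (coinProduct I) (rr i n)) s) =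
          AE (coinProduct I) (E y k s ∩ cyl (rr i) s) := by
        intro k s
        rw [hCE, inCyl_AE (measurable_rr i) hXm, fand_AE]
      simp only [h3]
      rw [← fall_AE]
      congr 1
      funext k
      exact fex_AE fun s => (hE y k s).inter (measurable_cyl (measurable_rr i) s)
    rw [← h2]
    exact hy
  let G : ℕ → Set (I × ℕ → Bool) := fun k => ⋂ F : Finset (List Bool),
    ⋂ _ : (2⁻¹ : ℝ≥0∞) ^ k < ∑ s ∈ F, (2⁻¹ : ℝ≥0∞) ^ s.length, (⋂ s : F, E y k s)ᶜ
  have h4 : r' ∈ AE (coinProduct I) (⋂ k, G k) := by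
    have h5 : NullCode (C y) = AE (coinProduct I) (⋂ k, G k) := by
      unfold NullCode
      simp only [hCE, fall_AE]
      rw [← fall_AE]
      congr 1
      funext k
      simp only [G, ← fall_AE]
      congr 1
      funext F
      congr 1
      funext _
      rw [fall_AE, fnot_AE (MeasurableSet.iInter fun s : F => hE y k s.1)]
    rw [← h5]
    have h6 : r ∈ NullCode (C y) := hC1 y
    rw [h5] at h6 ⊢
    exact down_AE _ _ h6 _ hr'
  have hGd : ∀ k, Dep TT (G k) := fun k => Dep.iInter fun F => Dep.iInter fun _ =>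
    (Dep.iInter fun s : F => hdep y k s.1).compl
  have hdisj : Disjoint TT {t : I × ℕ | t.1 = i} :=
    Set.disjoint_left.2 fun t h1 h2 => hi' t h1 h2
  -- the measure of the event
  have h7 : ∀ k, coinProduct I (G k ∩ ⋃ s : List Bool, E y k s ∩ cyl (rr i) s) ≤
      (2⁻¹ : ℝ≥0∞) ^ k := by
    intro k
    have e1 : G k ∩ (⋃ s : List Bool, E y k s ∩ cyl (rr i) s) =
        ⋃ s : List Bool, (G k ∩ E y k s) ∩ cyl (rr i) s := by
      rw [inter_iUnion]
      refine iUnion_congr fun s => ?_
      rw [inter_assoc]
    rw [e1]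
    refine (measure_iUnion_le _).trans ?_
    have e2 : ∀ s, coinProduct I ((G k ∩ E y k s) ∩ cyl (rr i) s) =
        ∫⁻ x in G k, (E y k s).indicator (fun _ => (2⁻¹ : ℝ≥0∞) ^ s.length) x ∂(coinProduct I) := by
      intro s
      rw [dep_indep hdisj ((hGd k).inter (hdep y k s)) (dep_cyl (dep_rr i) s), measure_cyl_rr,
        lintegral_indicator (hE y k s), setLIntegral_const, Measure.restrict_apply (hE y k s),
        mul_comm, inter_comm]
    simp only [e2]
    rw [← lintegral_tsum fun s => (measurable_const.indicator (hE y k s)).aemeasurable]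
    calc ∫⁻ x in G k, ∑' s, (E y k s).indicator (fun _ => (2⁻¹ : ℝ≥0∞) ^ s.length) x
          ∂(coinProduct I) ≤ ∫⁻ _ in G k, (2⁻¹ : ℝ≥0∞) ^ k ∂(coinProduct I) := by
          refine setLIntegral_mono' (hGd k).meas fun x hx => ?_
          rw [ENNReal.tsum_eq_iSup_sum]
          refine iSup_le fun F => ?_
          have e3 : ∑ s ∈ F, (E y k s).indicator (fun _ => (2⁻¹ : ℝ≥0∞) ^ s.length) x =
              ∑ s ∈ F.filter (fun s => x ∈ E y k s), (2⁻¹ : ℝ≥0∞) ^ s.length := by
            rw [Finset.sum_filter]
            refine Finset.sum_congr rfl fun s _ => ?_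
            by_cases h : x ∈ E y k s <;> simp [h]
          rw [e3]
          by_contra hlt
          rw [not_le] at hlt
          have h8 := mem_iInter₂.1 hx _ hlt
          apply h8
          refine mem_iInter.2 fun s => ?_
          exact (Finset.mem_filter.1 s.2).2
      _ = (2⁻¹ : ℝ≥0∞) ^ k * coinProduct I (G k) := by rw [setLIntegral_const]
      _ ≤ (2⁻¹ : ℝ≥0∞) ^ k * 1 := by gcongr; exact prob_le_one
      _ = _ := mul_one _
  apply r'.2.2
  refine le_antisymm ?_ bot_le
  refine ge_of_tendsto' (ENNReal.tendsto_pow_atTop_nhds_zero_of_lt_one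
    (r := (2⁻¹ : ℝ≥0∞)) (ENNReal.inv_lt_one.2 (by norm_num))) fun k => ?_
  refine le_trans (measure_mono_ae ?_) (h7 k)
  rw [mem_AE_iff] at h1 h4
  filter_upwards [h1, h4] with x hx1 hx4 hx
  exact ⟨mem_iInter.1 (hx4 hx) k, mem_iInter.1 (hx1 hx) k⟩

/-! ### The continuum -/

/-- the coordinate events -/
def coords (I : Type) : Set (Set (I × ℕ → Bool)) := range fun t : I × ℕ => {x | x t = true}

theorem pi_le_coords :
    (MeasurableSpace.pi : MeasurableSpace (I × ℕ → Bool)) ≤
      MeasurableSpace.generateFrom (coords I) := by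
  refine iSup_le fun t => ?_
  rw [← measurable_iff_comap_le]
  refine @measurable_to_bool _ (MeasurableSpace.generateFrom (coords I)) _ ?_
  exact MeasurableSpace.measurableSet_generateFrom ⟨t, rfl⟩

theorem mk_measurable (hI : ℵ₀ ≤ #I) (hpow : #I ^ ℵ₀ = #I) :
    #{A : Set (I × ℕ → Bool) // MeasurableSet A} ≤ #I := by
  have h1 : #{A : Set (I × ℕ → Bool) // MeasurableSet A} ≤
      #{A : Set (I × ℕ → Bool) // MeasurableSet[MeasurableSpace.generateFrom (coords I)] A} := by
    refine mk_le_of_injective (f := fun A => ⟨A.1, pi_le_coords _ A.2⟩) ?_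
    intro A B h
    have h' := congrArg (fun A => A.1) h
    exact Subtype.ext h'
  refine h1.trans ((MeasurableSpace.cardinal_measurableSet_le (coords I)).trans ?_)
  have h2 : max #(coords I) 2 ≤ #I := by
    refine max_le ?_ ?_
    · refine mk_range_le.trans ?_
      rw [mk_prod, lift_id, lift_id, mk_nat]
      exact (mul_eq_left hI hI aleph0_ne_zero).le
    · exact le_trans (by exact_mod_cast (natCast_lt_aleph0 (n := 2)).le) hI
  calc max #(coords I) 2 ^ ℵ₀ ≤ #I ^ ℵ₀ := power_le_power_right h2
    _ = #I := hpow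

theorem continuumLe (hI : ℵ₀ ≤ #I) (hpow : #I ^ ℵ₀ = #I) {Y : Type} (hY : #Y = #I)
    (p : Random I) : p ∈ ContinuumLe (Random I) Y := by
  classical
  have h1 : #(ℕ → {A : Set (I × ℕ → Bool) // MeasurableSet A}) ≤ #Y := by
    rw [hY, mk_arrow, lift_id, lift_id, mk_nat]
    exact (power_le_power_right (mk_measurable hI hpow)).trans hpow.le
  obtain ⟨e⟩ := h1
  have hne : Nonempty (ℕ → {A : Set (I × ℕ → Bool) // MeasurableSet A}) :=
    ⟨fun _ => ⟨∅, MeasurableSet.empty⟩⟩
  let g : Y → ℕ → {A : Set (I × ℕ → Bool) // MeasurableSet A} := Function.invFun e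
  have hg : Function.Surjective g := Function.invFun_surjective e.injective
  refine mem_fex_of (fun y n => AE (coinProduct I) (g y n).1) fun q _ X => ?_
  obtain ⟨X', hX', hXX⟩ := exists_rep X
  obtain ⟨y, hy⟩ := hg fun n => ⟨X' n, hX' n⟩
  refine mem_fex_of y fun r _ => same_of fun s _ n => ?_
  rw [hXX, meets_AE (g y n).2, hy]

theorem model (hI : ℵ₀ < #I) (hpow : #I ^ ℵ₀ = #I) {ν : Cardinal.{0}} (hν : ℵ₀ < ν) (hνI : ν ≤ #I)
    (p : Random I) : p ∈ Model.{0, 0} (Random I) #I ν := by
  refine ⟨cardinalsPreserved p, continuumLe hI.le hpow (mk_out _) p, fun μ hμ => ?_, ?_⟩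
  · exact not_covNLe hI (by rw [mk_out]; exact hμ) p
  · obtain ⟨e⟩ : Nonempty (ν.out ↪ I) := by
      rw [← Cardinal.le_def, mk_out]
      exact hνI
    exact covMLe (by rw [mk_out]; exact hν) e e.injective p

end Product

end Pool.Agent.R592.Ent
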