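import Pool.Agent.R592.Ent.Force

/-!
# The meaning of the sentences over the trivial forcing
-/

set_option autoImplicit false
set_option linter.unusedSectionVars false

namespace Pool.Agent.R592.Ent

open Cardinal MeasureTheory Set Filter Topology
open Pool.Agent.TH773.PSet Pool.Agent.R593.Rnd
open scoped ENNReal

/-- the least number of meagre subsets of `2 ^ ω` which cover it -/
noncomputable def covM : Cardinal.{0} :=
  sInf {c | ∃ 𝒩 : Set (Set (ℕ → Bool)), (∀ N ∈ 𝒩, IsMeagre N) ∧ ⋃₀ 𝒩 = Set.univ ∧ #𝒩 = c}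

/-- the point of `2 ^ ω` given by a name over the trivial forcing -/
noncomputable def pt (X : RName Unit) : ℕ → Bool :=
  fun n => open Classical in decide (() ∈ X n)

/-- the name given by a point -/
def nm (x : ℕ → Bool) : RName Unit := fun n => {_p | x n = true}

lemma pt_nm (x : ℕ → Bool) : pt (nm x) = x := by
  funext n
  cases h : x n <;> simp [pt, nm, h]

lemma unit_inCyl {X : RName Unit} {s : List Bool} {p : Unit} : p ∈ InCyl X s ↔ pt X ∈ Cyl s := by
  simp only [InCyl, mem_fall, Cyl, mem_ofPred_eq]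
  refine forall_congr' fun i => forall_congr' fun _ => ?_
  by_cases h : s.getD i false = true
  · rw [if_pos h, unit_meets, h]
    simp [pt]
  · rw [if_neg h, unit_fnot, unit_meets]
    rw [Bool.not_eq_true] at h
    rw [h]
    simp [pt]

lemma unit_same {X Y : RName Unit} {p : Unit} : p ∈ Same X Y ↔ pt X = pt Y := by
  simp only [Same, Pool.Agent.TH773.PSet.Sub, mem_fand, mem_fall, unit_fimp, unit_meets]
  rw [funext_iff, ← forall_and]
  refine forall_congr' fun n => ?_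
  simp only [pt, decide_eq_decide]
  exact ⟨fun h => ⟨h.1, h.2⟩, fun h => ⟨h.1, h.2⟩⟩

theorem unit_continuumLe {Y : Type} {p : Unit} : p ∈ ContinuumLe Unit Y ↔ 𝔠 ≤ #Y := by
  simp only [ContinuumLe, AllReals, unit_fex, mem_fall, unit_same]
  have hc : #(ℕ → Bool) = 𝔠 := by simp
  constructor
  · rintro ⟨D, hD⟩
    rw [← hc]
    refine mk_le_of_surjective (f := fun y => pt (D y)) fun x => ?_
    obtain ⟨y, hy⟩ := hD (nm x)
    exact ⟨y, by rw [pt_nm] at hy; exact hy.symm⟩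
  · intro h
    rw [← hc] at h
    obtain ⟨e⟩ := h
    refine ⟨fun y => nm (Function.invFun e y), fun X => ⟨e (pt X), ?_⟩⟩
    rw [pt_nm, Function.leftInverse_invFun e.injective]

/-! ### Meagre sets -/

/-- the point `x` has only finitely many initial segments in `A` -/
def FM (x : ℕ → Bool) (A : Set (List Bool)) : Prop :=
  ∃ N : ℕ, ∀ s : List Bool, N ≤ s.length → ¬ (x ∈ Cyl s ∧ s ∈ A)

/-- dense sets of strings -/
def DS (A : Set (List Bool)) : Prop := ∀ s, ∃ t ∈ A, s <+: t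

lemma cyl_ini_eq {x : ℕ → Bool} {s : List Bool} (h : x ∈ Cyl s) : s = ini x s.length := by
  apply List.ext_getElem
  · rw [ini_length]
  · intro i h1 h2
    have h3 := h i h1
    rw [List.getD_eq_getElem _ _ h1] at h3
    rw [← h3]
    simp [ini]

lemma isOpen_cyl (s : List Bool) : IsOpen (Cyl s) := by
  have : Cyl s = ⋂ i ∈ Finset.range s.length, {x : ℕ → Bool | x i = s.getD i false} := by
    ext x
    simp [Cyl]
  rw [this]
  refine isOpen_biInter_finset fun i _ => ?_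
  have h1 : IsOpen ((fun x : ℕ → Bool => x i) ⁻¹' {s.getD i false}) :=
    (isOpen_discrete ({s.getD i false} : Set Bool)).preimage (continuous_apply i)
  exact h1

lemma isMeagre_FM {A : Set (List Bool)} (hA : DS A) : IsMeagre {x | FM x A} := by
  have h1 : {x | FM x A} ⊆ ⋃ N : ℕ, {x | ∀ s : List Bool, N ≤ s.length → ¬ (x ∈ Cyl s ∧ s ∈ A)} := by
    rintro x ⟨N, hN⟩
    exact mem_iUnion.2 ⟨N, hN⟩
  refine (isMeagre_iUnion fun N => ?_).mono h1
  apply IsNowhereDense.isMeagre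
  have hcl : IsClosed {x : ℕ → Bool | ∀ s : List Bool, N ≤ s.length → ¬ (x ∈ Cyl s ∧ s ∈ A)} := by
    rw [← isOpen_compl_iff]
    have : {x : ℕ → Bool | ∀ s : List Bool, N ≤ s.length → ¬ (x ∈ Cyl s ∧ s ∈ A)}ᶜ =
        ⋃ s ∈ {s : List Bool | N ≤ s.length ∧ s ∈ A}, Cyl s := by
      ext x
      simp only [mem_compl_iff, mem_ofPred_eq, mem_iUnion, exists_prop]
      push Not
      exact exists_congr fun s => ⟨fun h => ⟨⟨h.1, h.2.2⟩, h.2.1⟩, fun h => ⟨h.1.1, h.2, h.1.2⟩⟩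
    rw [this]
    exact isOpen_biUnion fun s _ => isOpen_cyl s
  rw [hcl.isNowhereDense_iff, eq_empty_iff_forall_notMem]
  intro x hx
  obtain ⟨n, hn, hcyl⟩ := exists_cyl isOpen_interior hx N
  obtain ⟨t, htA, ht⟩ := hA (ini x n)
  let y : ℕ → Bool := fun i => t.getD i false
  have hyt : y ∈ Cyl t := fun i _ => rfl
  have hy : y ∈ interior {x : ℕ → Bool | ∀ s : List Bool, N ≤ s.length → ¬ (x ∈ Cyl s ∧ s ∈ A)} := by
    apply hcyl
    intro j hj
    have h2 : j < (ini x n).length := by rw [ini_length]; exact hj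
    have h3 := ht.getElem h2
    have h4 : j < t.length := lt_of_lt_of_le h2 ht.length_le
    have h5 : y j = t[j] := List.getD_eq_getElem _ _ h4
    rw [h5, ← h3]
    simp [ini]
  refine interior_subset hy t ?_ ⟨hyt, htA⟩
  have := ht.length_le
  rw [ini_length] at this
  omega

lemma exists_DS {N : Set (ℕ → Bool)} (hN : IsMeagre N) : ∃ A, DS A ∧ ∀ x ∈ N, FM x A := by
  obtain ⟨i, hi, z, hz⟩ := meagre_capture hN
  let A : Set (List Bool) :=
    {s | ∃ n, s.length = i (n + 1) ∧ ∀ j, i n ≤ j → j < i (n + 1) → s.getD j false = z j}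
  refine ⟨A, fun s => ?_, fun x hx => ?_⟩
  · let n := s.length
    have h1 : n ≤ i n := hi.id_le n
    have h2 : i n < i (n + 1) := hi (Nat.lt_succ_self n)
    refine ⟨s ++ List.ofFn (fun k : Fin (i (n + 1) - n) => z (n + k)), ⟨n, ?_, ?_⟩,
      List.prefix_append _ _⟩
    · rw [List.length_append, List.length_ofFn]
      omega
    · intro j hj1 hj2
      rw [List.getD_append_right _ _ _ _ (by omega)]
      rw [List.getD_eq_getElem _ _ (by rw [List.length_ofFn]; omega)]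
      simp only [List.getElem_ofFn]
      congr 1
      omega
  · obtain ⟨n0, hn0⟩ := eventually_atTop.1 (hz x hx)
    refine ⟨i (n0 + 1), ?_⟩
    rintro s hs ⟨hx1, n, hn, hn'⟩
    have h1 : n0 ≤ n := by
      rw [hn] at hs
      have := hi.le_iff_le.1 hs
      omega
    obtain ⟨j, hj1, hj2, hj3⟩ := hn0 n h1
    apply hj3
    rw [hx1 j (by omega)]
    exact hn' j hj1 hj2

theorem covM_le_iff {Y : Type} :
    (∃ A : Y → Set (List Bool), (∀ y, DS (A y)) ∧ ∀ x, ∃ y, FM x (A y)) ↔ covM ≤ #Y := by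
  constructor
  · rintro ⟨A, hA, h⟩
    have h1 : covM ≤ #(range fun y => {x | FM x (A y)}) := by
      refine csInf_le' ⟨_, ?_, ?_, rfl⟩
      · rintro _ ⟨y, rfl⟩
        exact isMeagre_FM (hA y)
      · refine eq_univ_of_forall fun x => ?_
        obtain ⟨y, hy⟩ := h x
        exact ⟨_, ⟨y, rfl⟩, hy⟩
    exact h1.trans mk_range_le
  · intro h
    have hne : {c : Cardinal.{0} | ∃ 𝒩 : Set (Set (ℕ → Bool)), (∀ N ∈ 𝒩, IsMeagre N) ∧
        ⋃₀ 𝒩 = Set.univ ∧ #𝒩 = c}.Nonempty := by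
      refine ⟨_, range fun x : ℕ → Bool => {x}, ?_, ?_, rfl⟩
      · rintro _ ⟨x, rfl⟩
        apply IsNowhereDense.isMeagre
        rw [isClosed_singleton.isNowhereDense_iff, eq_empty_iff_forall_notMem]
        intro y hy
        obtain ⟨n, -, hcyl⟩ := exists_cyl isOpen_interior hy 0
        have h1 : Function.update y n (!(y n)) ∈ interior {x} := by
          apply hcyl
          intro j hj
          rw [Function.update_of_ne hj.ne]
        have h2' : Function.update y n (!(y n)) ∈ ({x} : Set (ℕ → Bool)) := interior_subset h1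
        have h3' : y ∈ ({x} : Set (ℕ → Bool)) := interior_subset hy
        have h2 : Function.update y n (!(y n)) = x := h2'
        have h3 : y = x := h3'
        rw [← h3] at h2
        have h4 := congrFun h2 n
        simp at h4
      · exact eq_univ_of_forall fun x => ⟨{x}, ⟨x, rfl⟩, rfl⟩
    obtain ⟨𝒩, h1, h2, h3⟩ := csInf_mem hne
    change #𝒩 = covM at h3
    rw [← h3] at h
    obtain ⟨e⟩ := h
    have hne' : Nonempty 𝒩 := by
      obtain ⟨N, hN, _⟩ : (fun _ => true : ℕ → Bool) ∈ ⋃₀ 𝒩 := by rw [h2]; trivial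
      exact ⟨⟨N, hN⟩⟩
    choose A hA hA' using fun N : 𝒩 => exists_DS (h1 N.1 N.2)
    refine ⟨fun y => A (Function.invFun e y), fun y => hA _, fun x => ?_⟩
    obtain ⟨N, hN, hx⟩ : x ∈ ⋃₀ 𝒩 := by rw [h2]; trivial
    refine ⟨e ⟨N, hN⟩, ?_⟩
    have h5 : Function.invFun e (e ⟨N, hN⟩) = ⟨N, hN⟩ := Function.leftInverse_invFun e.injective _
    show FM x (A (Function.invFun e (e ⟨N, hN⟩)))
    rw [h5]
    exact hA' _ x hx

theorem unit_covMLe {Y : Type} {p : Unit} : p ∈ CovMLe Unit Y ↔ covM ≤ #Y := by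
  rw [← covM_le_iff]
  simp only [CovMLe, DenseSet, FinitelyMany, unit_fex, mem_fand, mem_fall, unit_fnot, unit_meets,
    unit_inCyl]
  constructor
  · rintro ⟨A, h1, h2⟩
    refine ⟨fun y => {s | () ∈ A y s}, fun y s => ?_, fun x => ?_⟩
    · obtain ⟨t, ht, ht'⟩ := h1 y s
      exact ⟨t, ht', ht⟩
    · obtain ⟨y, N, hN⟩ := h2 (nm x)
      rw [pt_nm] at hN
      exact ⟨y, N, hN⟩
  · rintro ⟨A, h1, h2⟩
    refine ⟨fun y s => {_p | s ∈ A y}, fun y s => ?_, fun X => ?_⟩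
    · obtain ⟨t, ht, ht'⟩ := h1 y s
      exact ⟨t, ht', ht⟩
    · obtain ⟨y, N, hN⟩ := h2 (pt X)
      exact ⟨y, N, hN⟩

/-! ### Null sets -/

/-- null codes -/
def NC (C : ℕ → Set (List Bool)) : Prop :=
  ∀ (k : ℕ) (F : Finset (List Bool)), (2⁻¹ : ℝ≥0∞) ^ k < ∑ s ∈ F, (2⁻¹ : ℝ≥0∞) ^ s.length →
    ¬ ∀ s ∈ F, s ∈ C k

/-- membership in the null set of a code -/
def IN (x : ℕ → Bool) (C : ℕ → Set (List Bool)) : Prop := ∀ k, ∃ s ∈ C k, x ∈ Cyl s

lemma isNull_IN {C : ℕ → Set (List Bool)} (hC : NC C) : IsNull {x | IN x C} := by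
  classical
  intro ε hε
  obtain ⟨k, hk⟩ := ENNReal.exists_inv_two_pow_lt hε
  refine ⟨C k, ?_, fun x hx => hx k⟩
  refine le_trans ?_ hk.le
  rw [ENNReal.tsum_eq_iSup_sum]
  refine iSup_le fun F => ?_
  by_contra hlt
  rw [not_le] at hlt
  refine hC k (F.image Subtype.val) ?_ ?_
  · rw [Finset.sum_image fun a _ b _ h => Subtype.ext h]
    exact hlt
  · intro s hs
    obtain ⟨s', _, rfl⟩ := Finset.mem_image.1 hs
    exact s'.2

lemma exists_NC {N : Set (ℕ → Bool)} (hN : IsNull N) : ∃ C, NC C ∧ ∀ x ∈ N, IN x C := by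
  classical
  choose C hC1 hC2 using fun k : ℕ => hN ((2⁻¹ : ℝ≥0∞) ^ k) (ENNReal.pow_ne_zero (by simp) k)
  refine ⟨C, fun k F hF hsub => ?_, fun x hx k => hC2 k x hx⟩
  refine absurd (hF.trans_le (le_trans ?_ (hC1 k))) (lt_irrefl _)
  have h1 : ∑ s ∈ F, (2⁻¹ : ℝ≥0∞) ^ s.length =
      ∑ s ∈ F.attach.map ⟨fun s : F => (⟨s.1, hsub s.1 s.2⟩ : C k),
        fun a b h => Subtype.ext (congrArg (fun s => s.1) h)⟩,
        (2⁻¹ : ℝ≥0∞) ^ (s : List Bool).length := by
    rw [Finset.sum_map]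
    exact (Finset.sum_attach F fun s => (2⁻¹ : ℝ≥0∞) ^ s.length).symm
  rw [h1]
  exact ENNReal.sum_le_tsum _

theorem covN_le_iff {Y : Type} :
    (∃ C : Y → ℕ → Set (List Bool), (∀ y, NC (C y)) ∧ ∀ x, ∃ y, IN x (C y)) ↔ covN ≤ #Y := by
  constructor
  · rintro ⟨C, hC, h⟩
    have h1 : covN ≤ #(range fun y => {x | IN x (C y)}) := by
      refine csInf_le' ⟨_, ?_, ?_, rfl⟩
      · rintro _ ⟨y, rfl⟩
        exact isNull_IN (hC y)
      · refine eq_univ_of_forall fun x => ?_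
        obtain ⟨y, hy⟩ := h x
        exact ⟨_, ⟨y, rfl⟩, hy⟩
    exact h1.trans mk_range_le
  · intro h
    have hne : {c : Cardinal.{0} | ∃ 𝒩 : Set (Set (ℕ → Bool)), (∀ N ∈ 𝒩, IsNull N) ∧
        ⋃₀ 𝒩 = Set.univ ∧ #𝒩 = c}.Nonempty := by
      refine ⟨_, range fun x : ℕ → Bool => {x}, ?_, ?_, rfl⟩
      · rintro _ ⟨x, rfl⟩
        exact isNull_singleton x
      · exact eq_univ_of_forall fun x => ⟨{x}, ⟨x, rfl⟩, rfl⟩
    obtain ⟨𝒩, h1, h2, h3⟩ := csInf_mem hne
    change #𝒩 = covN at h3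
    rw [← h3] at h
    obtain ⟨e⟩ := h
    have hne' : Nonempty 𝒩 := by
      obtain ⟨N, hN, _⟩ : (fun _ => true : ℕ → Bool) ∈ ⋃₀ 𝒩 := by rw [h2]; trivial
      exact ⟨⟨N, hN⟩⟩
    choose C hC hC' using fun N : 𝒩 => exists_NC (h1 N.1 N.2)
    refine ⟨fun y => C (Function.invFun e y), fun y => hC _, fun x => ?_⟩
    obtain ⟨N, hN, hx⟩ : x ∈ ⋃₀ 𝒩 := by rw [h2]; trivial
    refine ⟨e ⟨N, hN⟩, ?_⟩
    have h5 : Function.invFun e (e ⟨N, hN⟩) = ⟨N, hN⟩ := Function.leftInverse_invFun e.injective _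
    show IN x (C (Function.invFun e (e ⟨N, hN⟩)))
    rw [h5]
    exact hC' _ x hx

theorem unit_covNLe {Y : Type} {p : Unit} : p ∈ CovNLe Unit Y ↔ covN ≤ #Y := by
  rw [← covN_le_iff]
  simp only [CovNLe, NullCode, InNull, unit_fex, mem_fand, mem_fall, unit_fnot, unit_meets,
    unit_inCyl]
  constructor
  · rintro ⟨C, h1, h2⟩
    refine ⟨fun y k => {s | () ∈ C y k s}, fun y k F hF h => ?_, fun x => ?_⟩
    · exact h1 y k F hF fun s => h s.1 s.2
    · obtain ⟨y, hy⟩ := h2 (nm x)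
      rw [pt_nm] at hy
      exact ⟨y, hy⟩
  · rintro ⟨C, h1, h2⟩
    refine ⟨fun y k s => {_p | s ∈ C y k}, fun y k F hF h => ?_, fun X => ?_⟩
    · exact h1 y k F hF fun s hs => h ⟨s, hs⟩
    · obtain ⟨y, hy⟩ := h2 (pt X)
      exact ⟨y, hy⟩

theorem unit_cardinalsPreserved {p : Unit} : p ∈ CardinalsPreserved.{0, 0} Unit := by
  intro μ ν hμν _
  rw [unit_fnot, unit_fex]
  rintro ⟨R, h1, h2⟩
  obtain ⟨f, hf⟩ := unit_isFun.1 h1
  have h3 : Function.Surjective f := by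
    intro y
    obtain ⟨x, hx⟩ := unit_fex.1 (h2 y)
    exact ⟨x, (hf x y).1 (unit_meets.1 hx)⟩
  have h4 := mk_le_of_surjective h3
  rw [mk_out, mk_out] at h4
  exact absurd h4 (not_le.2 hμν)

/-- **The meaning of the sentence `Model`.** -/
theorem unit_model {κ ν : Cardinal.{0}} {p : Unit} :
    p ∈ Model.{0, 0} Unit κ ν ↔ (𝔠 ≤ κ ∧ κ ≤ covN ∧ covM ≤ ν) := by
  have h1 : (∀ μ : Cardinal.{0}, μ < κ → ¬ covN ≤ μ) ↔ κ ≤ covN := by
    constructor
    · intro h
      by_contra hlt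
      exact h covN (not_le.1 hlt) le_rfl
    · intro h μ hμ h'
      exact absurd (h.trans h') (not_le.2 hμ)
  simp only [Model, mem_fand, unit_cardinalsPreserved, true_and, unit_continuumLe, mem_fall,
    unit_fnot, unit_covNLe, unit_covMLe, mk_out, h1]

end Pool.Agent.R592.Ent
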